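import Mathlib

set_option autoImplicit false

namespace Pool.Agent.Helper93.EP

open scoped BigOperators

/-- `λ(G)`: the Laplacian eigenvalues of `G` listed with multiplicity in nonincreasing order. -/
noncomputable def lam {n : ℕ} (G : SimpleGraph (Fin n)) : Fin n → ℝ := by
  classical
  exact fun k => (G.isHermitian_lapMatrix ℝ).eigenvalues₀ (Fin.cast (Fintype.card_fin n).symm k)

/-- threshold graphs: the vertices can be ordered `σ 0, σ 1, …` so that each vertex `σ j` is
adjacent to all earlier ones (`b j`) or to none of them (`¬ b j`). -/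
def IsThreshold {n : ℕ} (G : SimpleGraph (Fin n)) : Prop :=
  ∃ (σ : Equiv.Perm (Fin n)) (b : Fin n → Prop),
    ∀ i j : Fin n, i < j → (G.Adj (σ i) (σ j) ↔ b j)

/-- `P_n = conv {λ(G)}`. -/
noncomputable def P (n : ℕ) : Set (Fin n → ℝ) :=
  convexHull ℝ (Set.range (lam (n := n)))

/-- degrees of the threshold graph with loops `{a ≤ b : h a + h b > 0}` (a loop counts twice). -/
noncomputable def theta {N : ℕ} (h : Fin N → ℝ) (a : Fin N) : ℝ := by
  classical
  exact (∑ b : Fin N, if 0 < h a + h b then (1 : ℝ) else 0) + (if 0 < h a + h a then (1 : ℝ) else 0)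

/-- `Φ(h) = Σ_{a ≤ b} (h a + h b)₊`. -/
noncomputable def Phi {N : ℕ} (h : Fin N → ℝ) : ℝ :=
  ((∑ a : Fin N, ∑ b : Fin N, max (h a + h b) 0) + ∑ a : Fin N, max (h a + h a) 0) / 2

/-- the vector `(theta h, 0)` in `ℝ^{N+1}`. -/
noncomputable def ext0 {N : ℕ} (y : Fin N → ℝ) : Fin (N + 1) → ℝ :=
  fun k => if hk : (k : ℕ) < N then y ⟨k, hk⟩ else 0

end Pool.Agent.Helper93.EP
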