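import Pool.Agent.Helper757.BrEq4

set_option autoImplicit false

namespace Pool.Agent.Helper93.LiGuo

/-- `S_k(G)`: the sum of the `k` largest eigenvalues of the Laplacian `L(G) = D(G) - A(G)`.
Mathlib's `eigenvalues₀ : Fin n → ℝ` lists the eigenvalues of a Hermitian matrix with
multiplicity in decreasing order, so `S_k(G)` is the sum of its entries with index `< k`. -/
noncomputable def S {V : Type} [Fintype V] [DecidableEq V] (G : SimpleGraph V)
    [DecidableRel G.Adj] (k : ℕ) : ℝ :=
  ∑ i : Fin (Fintype.card V),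
    if (i : ℕ) < k then (G.isHermitian_lapMatrix ℝ).eigenvalues₀ i else 0

/-- `G` is (isomorphic to) a member of the family `G_{k,r,s}` for some `r ≥ 1`, `s ≥ 0`: its vertex
set is partitioned into a clique `K` with `k` vertices, a nonempty independent set `R` and an
independent set `T = {v_1, …, v_s}`; every vertex of `K` is adjacent to every vertex of `R`; each
neighbourhood `N(v)`, `v ∈ T`, is a proper subset of `K`; and these neighbourhoods are nested. -/
def IsGkrs {V : Type} [Fintype V] [DecidableEq V] (G : SimpleGraph V) (k : ℕ) : Prop :=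
  ∃ K R T : Finset V,
    Disjoint K R ∧ Disjoint K T ∧ Disjoint R T ∧ K ∪ R ∪ T = Finset.univ ∧
    K.card = k ∧ R.Nonempty ∧
    (∀ u ∈ K, ∀ v ∈ K, u ≠ v → G.Adj u v) ∧
    (∀ u ∈ R, ∀ v ∈ R, ¬ G.Adj u v) ∧
    (∀ u ∈ K, ∀ v ∈ R, G.Adj u v) ∧
    (∀ v ∈ T, G.neighborSet v ⊂ (K : Set V)) ∧
    (∀ v ∈ T, ∀ w ∈ T,
      G.neighborSet v ⊆ G.neighborSet w ∨ G.neighborSet w ⊆ G.neighborSet v)

/-- **Brouwer's Laplacian conjecture together with the Li-Guo characterisation of its equality
cases.** For every finite simple graph `G` on `n` vertices and every `1 ≤ k ≤ n`,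
`S_k(G) ≤ e(G) + binom(k+1, 2)`, with equality if and only if `G` is a `G_{k,r,s}`; for `k = n`
the inequality is strict. -/
theorem result :
    ∀ (V : Type) [Fintype V] [DecidableEq V] (G : SimpleGraph V) [DecidableRel G.Adj] (k : ℕ),
      1 ≤ k → k ≤ Fintype.card V →
        S G k ≤ (G.edgeFinset.card : ℝ) + (((k + 1).choose 2 : ℕ) : ℝ) ∧
        (S G k = (G.edgeFinset.card : ℝ) + (((k + 1).choose 2 : ℕ) : ℝ) ↔ IsGkrs G k) ∧
        (k = Fintype.card V → S G k < (G.edgeFinset.card : ℝ) + (((k + 1).choose 2 : ℕ) : ℝ)) := by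
  intro V _ _ G _ k hk1 hk2
  obtain ⟨h1, h2⟩ := Pool.Agent.Helper757.BrEq.main G k hk1 hk2
  have h1' : S G k ≤ (G.edgeFinset.card : ℝ) + (((k + 1).choose 2 : ℕ) : ℝ) := h1
  have hiff : S G k = (G.edgeFinset.card : ℝ) + (((k + 1).choose 2 : ℕ) : ℝ) ↔ IsGkrs G k := by
    refine (Iff.trans h2 ?_)
    constructor
    · rintro ⟨K, R, T, a1, a2, a3, a4, a5, a6, a7, a8, a9, a10, a11, a12, a13⟩
      refine ⟨K, R, T, a1, a2, a3, a4, a5, a6, a7, a8, a10, ?_, ?_⟩
      · intro v hv
        rw [Set.ssubset_iff_subset_ne]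
        refine ⟨fun u hu => ?_, fun he => ?_⟩
        · have hadj : G.Adj v u := hu
          have hmem : u ∈ K ∪ R ∪ T := by rw [a4]; exact Finset.mem_univ u
          rw [Finset.mem_union, Finset.mem_union] at hmem
          rcases hmem with (h | h) | h
          · exact h
          · exact absurd hadj.symm (a11 u h v hv)
          · exact absurd hadj (a9 v hv u h)
        · obtain ⟨u, hu, hn⟩ := a12 v hv
          have : u ∈ G.neighborSet v := by rw [he]; exact hu
          exact hn this
      · intro v hv w hw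
        rcases a13 v hv w hw with h | h
        · left; intro u hu; exact h u (Finset.mem_univ u) hu
        · right; intro u hu; exact h u (Finset.mem_univ u) hu
    · rintro ⟨K, R, T, a1, a2, a3, a4, a5, a6, a7, a8, a10, a12, a13⟩
      refine ⟨K, R, T, a1, a2, a3, a4, a5, a6, a7, a8, ?_, a10, ?_, ?_, ?_⟩
      · intro u hu v hv hadj
        have : v ∈ (K : Set V) := (a12 u hu).subset hadj
        exact Finset.disjoint_left.1 a2 this hv
      · intro u hu v hv hadj
        have : u ∈ (K : Set V) := (a12 v hv).subset hadj.symm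
        exact Finset.disjoint_left.1 a1 this hu
      · intro v hv
        obtain ⟨u, hu, hn⟩ := Set.exists_of_ssubset (a12 v hv)
        exact ⟨u, hu, hn⟩
      · intro v hv w hw
        rcases a13 v hv w hw with h | h
        · left; intro u _ hu; exact h hu
        · right; intro u _ hu; exact h hu
  refine ⟨h1', hiff, fun hk => lt_of_le_of_ne h1' fun he => ?_⟩
  obtain ⟨K, R, T, a1, -, -, -, a5, a6, -⟩ := hiff.1 he
  have hK : K = Finset.univ := by
    rw [← Finset.card_eq_iff_eq_univ, a5, hk]
  obtain ⟨r, hr⟩ := a6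
  exact Finset.disjoint_left.1 a1 (by rw [hK]; exact Finset.mem_univ r) hr

end Pool.Agent.Helper93.LiGuo
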