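import Pool.Agent.Helper93.EP.T2
import Pool.Agent.Helper827.Brou.Spec

set_option autoImplicit false
namespace Pool.Agent.Helper93.EP
open scoped BigOperators

theorem lam_apply {n : ℕ} (G : SimpleGraph (Fin n)) [inst : DecidableRel G.Adj] (a : Fin n) :
    lam G a = (G.isHermitian_lapMatrix ℝ).eigenvalues₀
      (Fin.cast (Fintype.card_fin n).symm a) := by
  have hinst : inst = (fun a b => Classical.propDecidable (G.Adj a b)) := Subsingleton.elim _ _
  subst hinst
  rfl

theorem sum_lam {n : ℕ} (G : SimpleGraph (Fin n)) [DecidableRel G.Adj] :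
    ∑ a : Fin n, lam G a = 2 * (G.edgeFinset.card : ℝ) := by
  have h1 := (G.isHermitian_lapMatrix ℝ).trace_eq_sum_eigenvalues
  have h2 : (G.lapMatrix ℝ).trace = ∑ v : Fin n, (G.degree v : ℝ) := by
    simp only [SimpleGraph.lapMatrix, Matrix.trace_sub, SimpleGraph.trace_adjMatrix, sub_zero,
      SimpleGraph.degMatrix, Matrix.trace_diagonal]
  have h3 : ∑ v : Fin n, (G.degree v : ℝ) = 2 * (G.edgeFinset.card : ℝ) := by
    exact_mod_cast G.sum_degrees_eq_twice_card_edges
  rw [← h3, ← h2, h1]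
  simp only [Matrix.IsHermitian.eigenvalues, RCLike.ofReal_real_eq_id, id_eq]
  have e1 : ∑ a : Fin n, lam G a =
      ∑ k : Fin (Fintype.card (Fin n)), (G.isHermitian_lapMatrix ℝ).eigenvalues₀ k := by
    rw [← Equiv.sum_comp (finCongr (Fintype.card_fin n).symm)]
    refine Finset.sum_congr rfl fun a _ => ?_
    exact lam_apply G a
  rw [e1]
  exact (Equiv.sum_comp (Fintype.equivOfCardEq (Fintype.card_fin _)).symm _).symm

theorem sum_lam_lt {n : ℕ} (G : SimpleGraph (Fin n)) [DecidableRel G.Adj] (i : ℕ) :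
    (∑ a : Fin n, if (a : ℕ) < i then lam G a else 0) =
      ∑ a : Fin (Fintype.card (Fin n)),
        if (a : ℕ) < i then (G.isHermitian_lapMatrix ℝ).eigenvalues₀ a else 0 := by
  rw [← Equiv.sum_comp (finCongr (Fintype.card_fin n).symm)]
  refine Finset.sum_congr rfl fun a _ => ?_
  have : (((finCongr (Fintype.card_fin n).symm) a : Fin (Fintype.card (Fin n))) : ℕ) = (a : ℕ) := rfl
  rw [this]
  split_ifs
  · exact lam_apply G a
  · rfl

/-- T10 core -/
theorem core {n : ℕ} (G : SimpleGraph (Fin n)) (i j : ℕ) (hij : i ≤ j) (hj : j < n) :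
    (∑ a : Fin n, if (a : ℕ) < i then lam G a else 0) +
      (∑ a : Fin n, if (a : ℕ) < j then lam G a else 0) ≤
    (∑ a : Fin n, lam G a) + (i : ℝ) * ((j : ℝ) + 1) := by
  classical
  have h := Pool.Agent.Helper827.Brou.twoParam G i j hij (by rw [Fintype.card_fin]; omega)
  rw [sum_lam, sum_lam_lt G i, sum_lam_lt G j]
  exact h

end Pool.Agent.Helper93.EP
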