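import Pool.Agent.Helper93.EP.T9
import Pool.Agent.Helper93.EP.T10
import Pool.Agent.Helper93.EP.LiGuo

set_option autoImplicit false
namespace Pool.Agent.Helper93.EP
open scoped BigOperators

theorem S_eq {n : ℕ} (G : SimpleGraph (Fin n)) [DecidableRel G.Adj] (k : ℕ) :
    Pool.Agent.Helper93.LiGuo.S G k =
      ∑ a : Fin n, if (a : ℕ) < k then lam G a else 0 := by
  rw [sum_lam_lt]
  rfl

theorem gkrs_iff {n : ℕ} (G : SimpleGraph (Fin n)) (k : ℕ) :
    Pool.Agent.Helper93.LiGuo.IsGkrs G k ↔ IsGkrs G k := Iff.rfl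

theorem isThreshold_bot {n : ℕ} : IsThreshold (⊥ : SimpleGraph (Fin n)) :=
  ⟨Equiv.refl _, fun _ => False, fun i j _ => by simp⟩

/-- T9 -/
theorem thr_of_lam_eq {n : ℕ} (G T : SimpleGraph (Fin n)) (hT : IsThreshold T)
    (h : lam G = lam T) : IsThreshold G := by
  classical
  have hcard : (G.edgeFinset.card : ℝ) = (T.edgeFinset.card : ℝ) := by
    have h1 := sum_lam G
    have h2 := sum_lam T
    rw [h] at h1
    linarith
  by_cases hne : ∃ x y, T.Adj x y
  · obtain ⟨k, hk1, hk2, hk⟩ := Gkrs_of_thr T hT hne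
    have hLT := (Pool.Agent.Helper93.LiGuo.result (Fin n) T k hk1
      (by rw [Fintype.card_fin]; exact hk2)).2.1
    have hLG := (Pool.Agent.Helper93.LiGuo.result (Fin n) G k hk1
      (by rw [Fintype.card_fin]; exact hk2)).2.1
    have e1 := hLT.2 hk
    have e2 : Pool.Agent.Helper93.LiGuo.S G k =
        (G.edgeFinset.card : ℝ) + (((k + 1).choose 2 : ℕ) : ℝ) := by
      rw [S_eq, h, ← S_eq, e1, hcard]
    exact thr_of_Gkrs G k (hLG.1 e2)
  · have hT0 : T = ⊥ := by
      ext x y
      simp only [SimpleGraph.bot_adj, iff_false]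
      exact fun hxy => hne ⟨x, y, hxy⟩
    have hz : G.edgeFinset.card = 0 := by
      have : (T.edgeFinset.card : ℝ) = 0 := by
        subst hT0
        simp
      rw [this] at hcard
      exact_mod_cast hcard
    have hG0 : G = ⊥ := by
      rw [Finset.card_eq_zero] at hz
      exact SimpleGraph.edgeFinset_eq_empty.1 hz
    rw [hG0]
    exact isThreshold_bot

end Pool.Agent.Helper93.EP
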