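import Pool.Agent.Helper93.EP.Defs

set_option autoImplicit false

namespace Pool.Agent.Helper93.EP
open scoped BigOperators

theorem theta_congr251 {N : ℕ} (h : Fin N → ℝ) (a b : Fin N) (hab : h a = h b) :
    theta h a = theta h b := by
  unfold theta
  simp only [hab]

theorem theta_mono251 {N : ℕ} (h : Fin N → ℝ) (a b : Fin N) (hab : h b ≤ h a) :
    theta h b ≤ theta h a := by
  unfold theta
  apply add_le_add
  · apply Finset.sum_le_sum
    intro k _
    split_ifs <;> linarith
  · split_ifs <;> linarith

theorem theta_bd251 {N : ℕ} (h : Fin N → ℝ) (a : Fin N) :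
    0 ≤ theta h a ∧ theta h a ≤ N + 1 := by
  unfold theta
  constructor
  · apply add_nonneg
    · apply Finset.sum_nonneg
      intro k _
      split_ifs <;> norm_num
    · split_ifs <;> norm_num
  · apply add_le_add
    · calc (∑ b : Fin N, if 0 < h a + h b then (1 : ℝ) else 0) ≤ ∑ b : Fin N, (1:ℝ) := by
            apply Finset.sum_le_sum
            intro k _
            split_ifs <;> norm_num
        _ = N := by simp
    · split_ifs <;> norm_num

theorem exists_gap251 {N : ℕ} (h : Fin N → ℝ) :
    ∃ e : ℝ, 0 < e ∧ ∀ a b : Fin N, h b < h a → e * (N + 1) ≤ h a - h b := by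
  have h1 : ∀ᶠ e : ℝ in nhdsWithin 0 (Set.Ioi 0), ∀ a b : Fin N, h b < h a →
      e * (N + 1) ≤ h a - h b := by
    rw [Filter.eventually_all]
    intro a
    rw [Filter.eventually_all]
    intro b
    by_cases hab : h b < h a
    · have hcont : Filter.Tendsto (fun e : ℝ => e * ((N:ℝ) + 1)) (nhdsWithin 0 (Set.Ioi 0))
          (nhds (0 * ((N:ℝ) + 1))) :=
        ((continuous_id.mul continuous_const).tendsto 0).mono_left nhdsWithin_le_nhds
      rw [zero_mul] at hcont
      have := hcont.eventually_le_const (show (0:ℝ) < h a - h b by linarith)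
      filter_upwards [this] with e he _
      exact he
    · exact Filter.Eventually.of_forall fun e h => absurd h hab
  obtain ⟨e, he1, he2⟩ := (h1.and self_mem_nhdsWithin).exists
  exact ⟨e, he2, he1⟩

theorem proj {N : ℕ} (c : Fin N → ℝ) :
    ∃ h : Fin N → ℝ, Antitone h ∧ (∀ y : Fin N → ℝ, Antitone y → ∑ a, c a * y a ≤ ∑ a, h a * y a) ∧
      ∑ a, c a * theta h a = ∑ a, h a * theta h a := by
  let K : Set (EuclideanSpace ℝ (Fin N)) := {x | Antitone (fun i => x i)}
  have hne : K.Nonempty := ⟨0, fun a b _ => le_rfl⟩
  have hclosed : IsClosed K := by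
    have : K = ⋂ (a : Fin N) (b : Fin N) (_ : a ≤ b), {x | x b ≤ x a} := by
      ext x
      simp only [Set.mem_iInter]
      exact ⟨fun h a b hab => h hab, fun h a b hab => h a b hab⟩
    rw [this]
    refine isClosed_iInter fun a => isClosed_iInter fun b => isClosed_iInter fun _ => ?_
    exact isClosed_le (by fun_prop) (by fun_prop)
  have hconv : Convex ℝ K := by
    intro x hx y hy s t hs ht hst a b hab
    have h1 := hx hab
    have h2 := hy hab
    simp only at h1 h2
    show s * x b + t * y b ≤ s * x a + t * y a
    nlinarith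
  obtain ⟨h, hK, hmin⟩ := exists_norm_eq_iInf_of_complete_convex hne hclosed.isComplete hconv
    (WithLp.toLp 2 c)
  rw [norm_eq_iInf_iff_real_inner_le_zero hconv hK] at hmin
  have key : ∀ w : Fin N → ℝ, Antitone w → ∑ a, (c a - h a) * (w a - h a) ≤ 0 := by
    intro w hw
    have h1 := hmin (WithLp.toLp 2 w) hw
    have h2 : inner ℝ (WithLp.toLp 2 c - h) (WithLp.toLp 2 w - h) =
        ∑ a, (c a - h a) * (w a - h a) := by
      rw [PiLp.inner_apply]
      refine Finset.sum_congr rfl fun a _ => ?_
      simp [mul_comm]
    rw [h2] at h1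
    exact h1
  refine ⟨fun i => h i, hK, ?_, ?_⟩
  · intro y hy
    have h1 := key (fun a => h a + y a) (fun a b hab => add_le_add (hK hab) (hy hab))
    have h2 : ∑ a, (c a - h a) * ((h a + y a) - h a) = ∑ a, c a * y a - ∑ a, h a * y a := by
      rw [← Finset.sum_sub_distrib]
      refine Finset.sum_congr rfl fun a _ => ?_
      ring
    rw [h2] at h1
    linarith
  · set g : Fin N → ℝ := fun i => h i with hg
    have hθ : Antitone (theta g) := fun a b hab => theta_mono251 g a b (hK hab)
    obtain ⟨e, he, hgap⟩ := exists_gap251 g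
    have h1 := key (fun a => h a + theta g a) (fun a b hab => add_le_add (hK hab) (hθ hab))
    have h2 : ∑ a, (c a - h a) * ((h a + theta g a) - h a) =
        ∑ a, c a * theta g a - ∑ a, g a * theta g a := by
      rw [← Finset.sum_sub_distrib]
      refine Finset.sum_congr rfl fun a _ => ?_
      rw [hg]; ring
    rw [h2] at h1
    have h3 := key (fun a => g a - e * theta g a) (by
      intro a b hab
      have h4 : g b ≤ g a := hK hab
      rcases h4.lt_or_eq with h5 | h5
      · have h6 := hgap a b h5
        have h7 := (theta_bd251 g a).2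
        have h8 := (theta_bd251 g b).1
        show g b - e * theta g b ≤ g a - e * theta g a
        nlinarith
      · show g b - e * theta g b ≤ g a - e * theta g a
        rw [theta_congr251 g a b h5.symm, h5])
    have h4 : ∑ a, (c a - h a) * ((g a - e * theta g a) - h a) =
        -(e * (∑ a, c a * theta g a - ∑ a, g a * theta g a)) := by
      rw [← Finset.sum_sub_distrib, Finset.mul_sum, ← Finset.sum_neg_distrib]
      refine Finset.sum_congr rfl fun a _ => ?_
      rw [hg]; ring
    rw [h4] at h3
    have h5 : 0 ≤ ∑ a, c a * theta g a - ∑ a, g a * theta g a := by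
      by_contra hcon
      push Not at hcon
      have := mul_neg_of_pos_of_neg he hcon
      linarith
    linarith

end Pool.Agent.Helper93.EP
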