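import Pool.Agent.Helper93.EP.T1

set_option autoImplicit false

namespace Pool.Agent.Helper93.EP.R5
open scoped BigOperators


/-- eigenvector certificate: an orthogonal eigenbasis whose last vector is all ones, with the
eigenvalues `μ` (nonincreasing, last one 0). -/
def Cert {N : ℕ} (G : SimpleGraph (Fin (N + 1))) (y : Fin N → ℝ) : Prop := by
  classical
  exact ∃ v : Fin N → (Fin (N + 1) → ℝ), (∀ a, v a ≠ 0) ∧ (∀ a b, a ≠ b → (v a) ⬝ᵥ (v b) = 0) ∧
    (∀ a, ∑ x, v a x = 0) ∧
    (∀ a x, (∑ z, (if G.Adj x z then (v a x - v a z) else 0)) = y a * v a x)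

/-- add one vertex, dominating if `p`, isolated if `¬ p` -/
def extG {n : ℕ} (G : SimpleGraph (Fin n)) (p : Prop) : SimpleGraph (Fin (n + 1)) where
  Adj x y := (∃ x' y' : Fin n, x = x'.castSucc ∧ y = y'.castSucc ∧ G.Adj x' y') ∨
    (p ∧ x ≠ y ∧ (x = Fin.last n ∨ y = Fin.last n))
  symm := ⟨by
    rintro x y (⟨x', y', h1, h2, h3⟩ | ⟨h1, h2, h3⟩)
    · exact Or.inl ⟨y', x', h2, h1, h3.symm⟩
    · exact Or.inr ⟨h1, h2.symm, h3.symm⟩⟩
  loopless := ⟨by
    rintro x (⟨x', y', h1, h2, h3⟩ | ⟨h1, h2, h3⟩)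
    · have : x' = y' := Fin.castSucc_injective _ (h1.symm.trans h2)
      subst this
      exact G.loopless.irrefl _ h3
    · exact h2 rfl⟩

theorem extG_cc {n : ℕ} (G : SimpleGraph (Fin n)) (p : Prop) (x y : Fin n) :
    (extG G p).Adj x.castSucc y.castSucc ↔ G.Adj x y := by
  constructor
  · rintro (⟨x', y', h1, h2, h3⟩ | ⟨h1, h2, h3⟩)
    · have e1 := Fin.castSucc_injective _ h1
      have e2 := Fin.castSucc_injective _ h2
      subst e1; subst e2; exact h3
    · rcases h3 with h3 | h3
      · exact absurd h3 (Fin.castSucc_ne_last _)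
      · exact absurd h3 (Fin.castSucc_ne_last _)
  · intro h
    exact Or.inl ⟨x, y, rfl, rfl, h⟩

theorem extG_cl {n : ℕ} (G : SimpleGraph (Fin n)) (p : Prop) (x : Fin n) :
    (extG G p).Adj x.castSucc (Fin.last n) ↔ p := by
  constructor
  · rintro (⟨x', y', h1, h2, h3⟩ | ⟨h1, h2, h3⟩)
    · exact absurd h2.symm (Fin.castSucc_ne_last _)
    · exact h1
  · intro h
    exact Or.inr ⟨h, Fin.castSucc_ne_last _, Or.inr rfl⟩

theorem extG_lc {n : ℕ} (G : SimpleGraph (Fin n)) (p : Prop) (x : Fin n) :
    (extG G p).Adj (Fin.last n) x.castSucc ↔ p := by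
  rw [SimpleGraph.adj_comm]; exact extG_cl G p x

theorem extG_ll {n : ℕ} (G : SimpleGraph (Fin n)) (p : Prop) :
    ¬ (extG G p).Adj (Fin.last n) (Fin.last n) := (extG G p).loopless.irrefl _

/-- extend a permutation by fixing the last point -/
def extS {n : ℕ} (σ : Equiv.Perm (Fin n)) : Equiv.Perm (Fin (n + 1)) where
  toFun := fun i => Fin.lastCases (motive := fun _ => Fin (n + 1)) (Fin.last n)
    (fun j => (σ j).castSucc) i
  invFun := fun i => Fin.lastCases (motive := fun _ => Fin (n + 1)) (Fin.last n)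
    (fun j => (σ.symm j).castSucc) i
  left_inv := by
    intro i
    refine Fin.lastCases ?_ ?_ i
    · simp
    · intro j; simp
  right_inv := by
    intro i
    refine Fin.lastCases ?_ ?_ i
    · simp
    · intro j; simp

theorem extS_c {n : ℕ} (σ : Equiv.Perm (Fin n)) (i : Fin n) :
    extS σ i.castSucc = (σ i).castSucc := by simp [extS]

theorem extS_l {n : ℕ} (σ : Equiv.Perm (Fin n)) :
    extS σ (Fin.last n) = Fin.last n := by simp [extS]

theorem thr_ext {n : ℕ} (G : SimpleGraph (Fin n)) (p : Prop) (hG : IsThreshold G) :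
    IsThreshold (extG G p) := by
  obtain ⟨σ, b, hb⟩ := hG
  refine ⟨extS σ, fun i => Fin.lastCases (motive := fun _ => Prop) p b i, ?_⟩
  intro i j
  refine Fin.lastCases ?_ ?_ j
  · refine Fin.lastCases ?_ ?_ i
    · intro h; exact absurd h (lt_irrefl _)
    · intro i' _
      rw [extS_c, extS_l]
      simp only [Fin.lastCases_last]
      exact extG_cl G p _
  · intro j'
    refine Fin.lastCases ?_ ?_ i
    · intro h
      exact absurd h (not_lt.mpr (Fin.le_last _))
    · intro i' h
      rw [extS_c, extS_c]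
      simp only [Fin.lastCases_castSucc]
      rw [extG_cc]
      exact hb i' j' (by simpa using h)

/-- extend a vector by a value at the last vertex -/
def sn {n : ℕ} (v : Fin n → ℝ) (c : ℝ) : Fin (n + 1) → ℝ :=
  fun i => Fin.lastCases (motive := fun _ => ℝ) c v i

theorem sn_c {n : ℕ} (v : Fin n → ℝ) (c : ℝ) (i : Fin n) : sn v c i.castSucc = v i := by
  simp [sn]

theorem sn_l {n : ℕ} (v : Fin n → ℝ) (c : ℝ) : sn v c (Fin.last n) = c := by
  simp [sn]

theorem sn_ne {n : ℕ} (v : Fin n → ℝ) (c : ℝ) (hv : v ≠ 0) : sn v c ≠ 0 := by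
  intro h
  apply hv
  funext i
  have := congrFun h i.castSucc
  rw [sn_c] at this
  simpa using this

theorem sn_dot {n : ℕ} (v w : Fin n → ℝ) (c d : ℝ) : sn v c ⬝ᵥ sn w d = v ⬝ᵥ w + c * d := by
  unfold dotProduct
  rw [Fin.sum_univ_castSucc]
  simp only [sn_c, sn_l]

theorem sn_sum {n : ℕ} (v : Fin n → ℝ) (c : ℝ) : ∑ x, sn v c x = (∑ x, v x) + c := by
  rw [Fin.sum_univ_castSucc]
  simp only [sn_c, sn_l]

open Classical in
/-- the Laplacian as a sum -/
noncomputable def Lp {n : ℕ} (G : SimpleGraph (Fin n)) (v : Fin n → ℝ) (x : Fin n) : ℝ :=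
  ∑ z, (if G.Adj x z then (v x - v z) else 0)

open Classical in
theorem Lp_c {n : ℕ} (G : SimpleGraph (Fin n)) (p : Prop) (v : Fin n → ℝ) (c : ℝ) (x : Fin n) :
    Lp (extG G p) (sn v c) x.castSucc = Lp G v x + (if p then v x - c else 0) := by
  unfold Lp
  rw [Fin.sum_univ_castSucc]
  simp only [sn_c, sn_l, extG_cc, extG_cl]

open Classical in
theorem Lp_l {n : ℕ} (G : SimpleGraph (Fin n)) (p : Prop) (v : Fin n → ℝ) (c : ℝ) :
    Lp (extG G p) (sn v c) (Fin.last n) = if p then n * c - ∑ x, v x else 0 := by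
  unfold Lp
  rw [Fin.sum_univ_castSucc]
  simp only [sn_c, sn_l, extG_lc]
  rw [if_neg (extG_ll G p)]
  by_cases hp : p
  · simp only [hp, if_true, Finset.sum_sub_distrib, Finset.sum_const, Finset.card_univ,
      Fintype.card_fin, nsmul_eq_mul, add_zero]
  · simp [hp]

theorem Lp_const {n : ℕ} (G : SimpleGraph (Fin n)) (c : ℝ) (x : Fin n) :
    Lp G (fun _ => c) x = 0 := by
  unfold Lp
  simp

theorem cert_iff {N : ℕ} (G : SimpleGraph (Fin (N + 1))) (y : Fin N → ℝ) :
    Cert G y ↔ ∃ v : Fin N → (Fin (N + 1) → ℝ), (∀ a, v a ≠ 0) ∧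
      (∀ a b, a ≠ b → (v a) ⬝ᵥ (v b) = 0) ∧ (∀ a, ∑ x, v a x = 0) ∧
      (∀ a x, Lp G (v a) x = y a * v a x) := Iff.rfl

/-- the special vector `(1, …, 1, -(N+1))` -/
def spv (N : ℕ) : Fin (N + 1 + 1) → ℝ := sn (fun _ : Fin (N + 1) => (1 : ℝ)) (-((N : ℝ) + 1))

theorem spv_ne (N : ℕ) : spv N ≠ 0 := by
  intro h
  have := congrFun h (Fin.last (N + 1))
  unfold spv at this
  rw [sn_l] at this
  simp only [Pi.zero_apply] at this
  have h2 : (0 : ℝ) ≤ N := Nat.cast_nonneg N
  linarith

theorem spv_sum (N : ℕ) : ∑ x, spv N x = 0 := by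
  unfold spv
  rw [sn_sum]
  simp

theorem spv_dot (N : ℕ) (v : Fin (N + 1) → ℝ) (hv : ∑ x, v x = 0) :
    spv N ⬝ᵥ sn v 0 = 0 := by
  unfold spv
  rw [sn_dot]
  simp [dotProduct, hv]

theorem dot_spv (N : ℕ) (v : Fin (N + 1) → ℝ) (hv : ∑ x, v x = 0) :
    sn v 0 ⬝ᵥ spv N = 0 := by
  rw [dotProduct_comm]; exact spv_dot N v hv

theorem spv_true {N : ℕ} (G : SimpleGraph (Fin (N + 1))) (x : Fin (N + 1 + 1)) :
    Lp (extG G True) (spv N) x = ((N : ℝ) + 2) * spv N x := by
  unfold spv
  refine Fin.lastCases ?_ ?_ x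
  · rw [Lp_l, sn_l]
    simp only [if_true, Finset.sum_const, Finset.card_univ, Fintype.card_fin, nsmul_eq_mul]
    push_cast; ring
  · intro i
    rw [Lp_c, sn_c, Lp_const]
    simp only [if_true]; ring

theorem spv_false {N : ℕ} (G : SimpleGraph (Fin (N + 1))) (x : Fin (N + 1 + 1)) :
    Lp (extG G False) (spv N) x = 0 * spv N x := by
  unfold spv
  refine Fin.lastCases ?_ ?_ x
  · rw [Lp_l, sn_l]
    simp
  · intro i
    rw [Lp_c, sn_c, Lp_const]
    simp

theorem old_true {N : ℕ} (G : SimpleGraph (Fin (N + 1))) (v : Fin (N + 1) → ℝ) (c : ℝ)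
    (hs : ∑ x, v x = 0) (hv : ∀ x, Lp G v x = c * v x) (x : Fin (N + 1 + 1)) :
    Lp (extG G True) (sn v 0) x = (c + 1) * sn v 0 x := by
  refine Fin.lastCases ?_ ?_ x
  · rw [Lp_l, sn_l, hs]
    simp
  · intro i
    rw [Lp_c, sn_c, hv]
    simp only [if_true]; ring

theorem old_false {N : ℕ} (G : SimpleGraph (Fin (N + 1))) (v : Fin (N + 1) → ℝ) (c : ℝ)
    (hv : ∀ x, Lp G v x = c * v x) (x : Fin (N + 1 + 1)) :
    Lp (extG G False) (sn v 0) x = c * sn v 0 x := by
  refine Fin.lastCases ?_ ?_ x
  · rw [Lp_l, sn_l]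
    simp
  · intro i
    rw [Lp_c, sn_c, hv]
    simp

theorem theta_A0 {N : ℕ} (h : Fin (N + 1) → ℝ) (hh : Antitone h) (hp : 0 < h 0 + h (Fin.last N)) :
    theta h 0 = (N : ℝ) + 2 := by
  unfold theta
  have h1 : ∀ b, 0 < h 0 + h b := fun b => by
    have := hh (Fin.le_last b); linarith
  have h2 : (∑ b : Fin (N + 1), if 0 < h 0 + h b then (1 : ℝ) else 0) = (N : ℝ) + 1 := by
    rw [Finset.sum_congr rfl (fun b _ => if_pos (h1 b))]
    simp
  rw [h2, if_pos (h1 0)]; ring

theorem theta_As {N : ℕ} (h : Fin (N + 1) → ℝ) (hh : Antitone h) (hp : 0 < h 0 + h (Fin.last N))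
    (a : Fin N) : theta h a.succ = theta (fun i => h i.succ) a + 1 := by
  unfold theta
  rw [Fin.sum_univ_succ]
  have h1 : 0 < h a.succ + h 0 := by
    have := hh (Fin.le_last a.succ); linarith
  rw [if_pos h1]
  ring

theorem theta_Bl {N : ℕ} (h : Fin (N + 1) → ℝ) (hh : Antitone h)
    (hp : ¬ 0 < h 0 + h (Fin.last N)) : theta h (Fin.last N) = 0 := by
  unfold theta
  have h1 : ∀ b, ¬ 0 < h (Fin.last N) + h b := fun b => by
    have := hh (Fin.zero_le b); push Not at hp ⊢; linarith
  rw [Finset.sum_congr rfl (fun b _ => if_neg (h1 b)), if_neg (h1 _)]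
  simp

theorem theta_Bc {N : ℕ} (h : Fin (N + 1) → ℝ) (hh : Antitone h)
    (hp : ¬ 0 < h 0 + h (Fin.last N)) (a : Fin N) :
    theta h a.castSucc = theta (fun i => h i.castSucc) a := by
  unfold theta
  rw [Fin.sum_univ_castSucc]
  have h1 : ¬ 0 < h a.castSucc + h (Fin.last N) := by
    have := hh (Fin.zero_le a.castSucc); push Not at hp ⊢; linarith
  rw [if_neg h1]
  ring

/-- main: certificates for threshold graphs by induction on `N`
(if `h 0 + h last > 0` the largest entry is a dominating vertex, theta = (N+1, theta' + 1);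
otherwise the last entry is an isolated vertex, theta = (theta', 0)). -/
theorem realize_cert {N : ℕ} (h : Fin N → ℝ) (hh : Antitone h) :
    ∃ G : SimpleGraph (Fin (N + 1)), IsThreshold G ∧ Cert G (theta h) := by
  induction N with
  | zero =>
    refine ⟨⊥, ⟨Equiv.refl _, fun _ => False, ?_⟩, ?_⟩
    · intro i j hij
      exact absurd hij (by
        have : i = j := Fin.ext (by have := i.2; have := j.2; omega)
        rw [this]; exact lt_irrefl _)
    · rw [cert_iff]
      exact ⟨fun a => a.elim0, fun a => a.elim0, fun a => a.elim0, fun a => a.elim0,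
        fun a => a.elim0⟩
  | succ N ih =>
    by_cases hp : 0 < h 0 + h (Fin.last N)
    · obtain ⟨G, hG, hC⟩ := ih (fun i => h i.succ) (fun i j hij => hh (by simpa using hij))
      rw [cert_iff] at hC
      obtain ⟨v, h1, h2, h3, h4⟩ := hC
      refine ⟨extG G True, thr_ext G True hG, ?_⟩
      rw [cert_iff]
      refine ⟨Fin.cons (spv N) (fun a => sn (v a) 0), ?_, ?_, ?_, ?_⟩
      · intro a
        refine Fin.cases ?_ ?_ a
        · rw [Fin.cons_zero]; exact spv_ne N
        · intro i; rw [Fin.cons_succ]; exact sn_ne _ _ (h1 i)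
      · intro a b
        refine Fin.cases ?_ ?_ a
        · refine Fin.cases ?_ ?_ b
          · intro h; exact absurd rfl h
          · intro j _
            rw [Fin.cons_zero, Fin.cons_succ]
            exact spv_dot N _ (h3 j)
        · intro i
          refine Fin.cases ?_ ?_ b
          · intro _
            rw [Fin.cons_zero, Fin.cons_succ]
            exact dot_spv N _ (h3 i)
          · intro j hij
            rw [Fin.cons_succ, Fin.cons_succ, sn_dot, h2 i j (fun e => hij (by rw [e]))]
            ring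
      · intro a
        refine Fin.cases ?_ ?_ a
        · rw [Fin.cons_zero]; exact spv_sum N
        · intro i; rw [Fin.cons_succ, sn_sum, h3 i]; ring
      · intro a
        refine Fin.cases ?_ ?_ a
        · intro x
          rw [Fin.cons_zero, theta_A0 h hh hp]
          exact spv_true G x
        · intro i x
          rw [Fin.cons_succ, theta_As h hh hp i]
          exact old_true G (v i) _ (h3 i) (h4 i) x
    · obtain ⟨G, hG, hC⟩ := ih (fun i => h i.castSucc) (fun i j hij => hh (by simpa using hij))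
      rw [cert_iff] at hC
      obtain ⟨v, h1, h2, h3, h4⟩ := hC
      refine ⟨extG G False, thr_ext G False hG, ?_⟩
      rw [cert_iff]
      refine ⟨fun a => Fin.lastCases (motive := fun _ => Fin (N + 1 + 1) → ℝ) (spv N)
        (fun a => sn (v a) 0) a, ?_, ?_, ?_, ?_⟩
      · intro a
        refine Fin.lastCases ?_ ?_ a
        · simp only [Fin.lastCases_last]; exact spv_ne N
        · intro i; simp only [Fin.lastCases_castSucc]; exact sn_ne _ _ (h1 i)
      · intro a b
        refine Fin.lastCases ?_ ?_ a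
        · refine Fin.lastCases ?_ ?_ b
          · intro h; exact absurd rfl h
          · intro j _
            simp only [Fin.lastCases_last, Fin.lastCases_castSucc]
            exact spv_dot N _ (h3 j)
        · intro i
          refine Fin.lastCases ?_ ?_ b
          · intro _
            simp only [Fin.lastCases_last, Fin.lastCases_castSucc]
            exact dot_spv N _ (h3 i)
          · intro j hij
            simp only [Fin.lastCases_castSucc]
            rw [sn_dot, h2 i j (fun e => hij (by rw [e]))]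
            ring
      · intro a
        refine Fin.lastCases ?_ ?_ a
        · simp only [Fin.lastCases_last]; exact spv_sum N
        · intro i; simp only [Fin.lastCases_castSucc]; rw [sn_sum, h3 i]; ring
      · intro a
        refine Fin.lastCases ?_ ?_ a
        · intro x
          simp only [Fin.lastCases_last]
          rw [theta_Bl h hh hp]
          exact spv_false G x
        · intro i x
          simp only [Fin.lastCases_castSucc]
          rw [theta_Bc h hh hp i]
          exact old_false G (v i) _ (h4 i) x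

theorem theta_antitone {N : ℕ} (h : Fin N → ℝ) (hh : Antitone h) : Antitone (theta h) := by
  intro a b hab
  have hab' := hh hab
  unfold theta
  refine add_le_add (Finset.sum_le_sum (fun c _ => ?_)) ?_
  · split_ifs with h1 h2
    · exact le_refl _
    · exact absurd (by linarith) h2
    · exact zero_le_one
    · exact le_refl _
  · split_ifs with h1 h2
    · exact le_refl _
    · exact absurd (by linarith) h2
    · exact zero_le_one
    · exact le_refl _

theorem theta_nonneg {N : ℕ} (h : Fin N → ℝ) (a : Fin N) : 0 ≤ theta h a := by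
  unfold theta
  refine add_nonneg (Finset.sum_nonneg (fun c _ => ?_)) ?_
  · split_ifs <;> norm_num
  · split_ifs <;> norm_num

theorem ext0_c {N : ℕ} (y : Fin N → ℝ) (i : Fin N) : ext0 y i.castSucc = y i := by
  unfold ext0
  have : ((i.castSucc : Fin (N + 1)) : ℕ) < N := i.2
  rw [dif_pos this]
  rfl

theorem ext0_l {N : ℕ} (y : Fin N → ℝ) : ext0 y (Fin.last N) = 0 := by
  unfold ext0
  have : ¬ ((Fin.last N : Fin (N + 1)) : ℕ) < N := by simp
  rw [dif_neg this]

open Classical in
theorem lap_eq_Lp {n : ℕ} (G : SimpleGraph (Fin n)) (v : Fin n → ℝ) (x : Fin n) :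
    (G.lapMatrix ℝ).mulVec v x = Lp G v x := by
  rw [SimpleGraph.lapMatrix_mulVec_apply]
  unfold Lp
  rw [← Finset.sum_filter, Finset.sum_sub_distrib]
  congr 1
  · rw [Finset.sum_const, nsmul_eq_mul, ← SimpleGraph.card_neighborFinset_eq_degree,
      SimpleGraph.neighborFinset_eq_filter]
  · rw [SimpleGraph.neighborFinset_eq_filter]

theorem realize {N : ℕ} (h : Fin N → ℝ) (hh : Antitone h) :
    ∃ G : SimpleGraph (Fin (N + 1)), IsThreshold G ∧ lam G = ext0 (theta h) := by
  classical
  obtain ⟨G, hG, hC⟩ := realize_cert h hh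
  refine ⟨G, hG, ?_⟩
  rw [cert_iff] at hC
  obtain ⟨v, h1, h2, h3, h4⟩ := hC
  refine lam_eq_of_eigen G (fun a => Fin.lastCases (motive := fun _ => Fin (N + 1) → ℝ)
        (fun _ => (1 : ℝ)) v a) (ext0 (theta h)) ?_ ?_ ?_ ?_
  · intro a
    refine Fin.lastCases ?_ ?_ a
    · simp only [Fin.lastCases_last]
      intro e
      have := congrFun e (Fin.last N)
      simp at this
    · intro i; simp only [Fin.lastCases_castSucc]; exact h1 i
  · intro a b
    refine Fin.lastCases ?_ ?_ a
    · refine Fin.lastCases ?_ ?_ b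
      · intro h; exact absurd rfl h
      · intro j _
        simp only [Fin.lastCases_last, Fin.lastCases_castSucc]
        simpa [dotProduct] using h3 j
    · intro i
      refine Fin.lastCases ?_ ?_ b
      · intro _
        simp only [Fin.lastCases_last, Fin.lastCases_castSucc]
        simpa [dotProduct] using h3 i
      · intro j hij
        simp only [Fin.lastCases_castSucc]
        exact h2 i j (fun e => hij (by rw [e]))
  · intro a
    funext x
    rw [lap_eq_Lp]
    refine Fin.lastCases ?_ ?_ a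
    · simp only [Fin.lastCases_last]
      rw [Lp_const, ext0_l]
      simp
    · intro i; simp only [Fin.lastCases_castSucc]
      rw [h4 i x, ext0_c]
      simp
  · intro a b
    refine Fin.lastCases ?_ ?_ b
    · intro _
      rw [ext0_l]
      refine Fin.lastCases ?_ ?_ a
      · rw [ext0_l]
      · intro i; rw [ext0_c]; exact theta_nonneg h i
    · intro j
      refine Fin.lastCases ?_ ?_ a
      · intro hab
        exact absurd hab (not_le.mpr (Fin.castSucc_lt_last j))
      · intro i hij
        rw [ext0_c, ext0_c]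
        exact theta_antitone h hh (by simpa using hij)

end Pool.Agent.Helper93.EP.R5
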