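import Pool.Agent.Helper93.EP.T1

set_option autoImplicit false

namespace Pool.Agent.Helper93.EP.R6
open scoped BigOperators


/-- eigenvector certificate -/
def Cert {N : ℕ} (G : SimpleGraph (Fin (N + 1))) (y : Fin N → ℝ) : Prop := by
  classical
  exact ∃ v : Fin N → (Fin (N + 1) → ℝ), (∀ a, v a ≠ 0) ∧ (∀ a b, a ≠ b → (v a) ⬝ᵥ (v b) = 0) ∧
    (∀ a, ∑ x, v a x = 0) ∧
    (∀ a x, (∑ z, (if G.Adj x z then (v a x - v a z) else 0)) = y a * v a x)

open Classical in
/-- the Laplacian applied to a vector -/
noncomputable def generic_Lap {n : ℕ} (G : SimpleGraph (Fin n)) (v : Fin n → ℝ) (x : Fin n) : ℝ :=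
  ∑ z, (if G.Adj x z then (v x - v z) else 0)

theorem generic_cert_iff {N : ℕ} (G : SimpleGraph (Fin (N + 1))) (y : Fin N → ℝ) :
    Cert G y ↔ ∃ v : Fin N → (Fin (N + 1) → ℝ), (∀ a, v a ≠ 0) ∧
    (∀ a b, a ≠ b → (v a) ⬝ᵥ (v b) = 0) ∧
    (∀ a, ∑ x, v a x = 0) ∧ (∀ a x, generic_Lap G (v a) x = y a * v a x) := Iff.rfl

/-- extension of a vector -/
def generic_ex {n : ℕ} (u : Fin n → ℝ) (c : ℝ) : Fin (n + 1) → ℝ := Fin.snoc (α := fun _ => ℝ) u c

theorem generic_ex_cast {n : ℕ} (u : Fin n → ℝ) (c : ℝ) (i : Fin n) :
    generic_ex u c (Fin.castSucc i) = u i := by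
  simp [generic_ex]

theorem generic_ex_last {n : ℕ} (u : Fin n → ℝ) (c : ℝ) :
    generic_ex u c (Fin.last n) = c := by
  simp [generic_ex]

theorem generic_ex_sum {n : ℕ} (u : Fin n → ℝ) (c : ℝ) :
    ∑ x, generic_ex u c x = ∑ x, u x + c := by
  rw [Fin.sum_univ_castSucc]
  simp only [generic_ex_cast, generic_ex_last]

theorem generic_ex_dot {n : ℕ} (u v : Fin n → ℝ) (c d : ℝ) :
    generic_ex u c ⬝ᵥ generic_ex v d = u ⬝ᵥ v + c * d := by
  simp only [dotProduct]
  rw [Fin.sum_univ_castSucc]
  simp only [generic_ex_cast, generic_ex_last]

theorem generic_lap_cast_pos {n : ℕ} (G : SimpleGraph (Fin (n + 1)))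
    (hB : ∀ i : Fin n, G.Adj (Fin.castSucc i) (Fin.last n)) (u : Fin n → ℝ) (c : ℝ) (i : Fin n) :
    generic_Lap G (generic_ex u c) (Fin.castSucc i) =
      generic_Lap (G.comap Fin.castSucc) u i + (u i - c) := by
  unfold generic_Lap
  rw [Fin.sum_univ_castSucc]
  simp only [generic_ex_cast, generic_ex_last, hB, if_true]
  rfl

theorem generic_lap_cast_neg {n : ℕ} (G : SimpleGraph (Fin (n + 1)))
    (hB : ∀ i : Fin n, ¬ G.Adj (Fin.castSucc i) (Fin.last n)) (u : Fin n → ℝ) (c : ℝ) (i : Fin n) :
    generic_Lap G (generic_ex u c) (Fin.castSucc i) =
      generic_Lap (G.comap Fin.castSucc) u i := by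
  unfold generic_Lap
  rw [Fin.sum_univ_castSucc]
  simp only [generic_ex_cast, generic_ex_last, hB, if_false, add_zero]
  rfl

theorem generic_lap_last_pos {n : ℕ} (G : SimpleGraph (Fin (n + 1)))
    (hB : ∀ i : Fin n, G.Adj (Fin.castSucc i) (Fin.last n)) (u : Fin n → ℝ) (c : ℝ) :
    generic_Lap G (generic_ex u c) (Fin.last n) = n * c - ∑ x, u x := by
  unfold generic_Lap
  rw [Fin.sum_univ_castSucc]
  have hB' : ∀ i : Fin n, G.Adj (Fin.last n) (Fin.castSucc i) := fun i => (hB i).symm
  simp only [generic_ex_cast, generic_ex_last, hB', if_true, SimpleGraph.irrefl, if_false, add_zero,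
    Finset.sum_sub_distrib, Finset.sum_const, Finset.card_univ, Fintype.card_fin, nsmul_eq_mul]

theorem generic_lap_last_neg {n : ℕ} (G : SimpleGraph (Fin (n + 1)))
    (hB : ∀ i : Fin n, ¬ G.Adj (Fin.castSucc i) (Fin.last n)) (u : Fin n → ℝ) (c : ℝ) :
    generic_Lap G (generic_ex u c) (Fin.last n) = 0 := by
  unfold generic_Lap
  rw [Fin.sum_univ_castSucc]
  have hB' : ∀ i : Fin n, ¬ G.Adj (Fin.last n) (Fin.castSucc i) := fun i h => (hB i) h.symm
  simp only [generic_ex_cast, generic_ex_last, hB', if_false, SimpleGraph.irrefl, add_zero,
    Finset.sum_const_zero]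

theorem generic_lap_const {n : ℕ} (G : SimpleGraph (Fin n)) (c : ℝ) (x : Fin n) :
    generic_Lap G (fun _ => c) x = 0 := by
  unfold generic_Lap
  simp

theorem generic_theta_snoc {n : ℕ} (h : Fin n → ℝ) (x : ℝ) (hx0 : x < 0) (hx : ∀ a, h a + x < 0)
    (a : Fin n) : theta (generic_ex h x) (Fin.castSucc a) = theta h a := by
  unfold theta
  rw [Fin.sum_univ_castSucc]
  simp only [generic_ex_cast, generic_ex_last, not_lt.mpr (hx a).le, if_false, add_zero]

theorem generic_theta_snoc_last {n : ℕ} (h : Fin n → ℝ) (x : ℝ) (hx0 : x < 0)
    (hx : ∀ a, h a + x < 0) : theta (generic_ex h x) (Fin.last n) = 0 := by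
  unfold theta
  rw [Fin.sum_univ_castSucc]
  have hx' : ∀ a, ¬ 0 < x + h a := fun a => by have := hx a; linarith
  have hx'' : ¬ 0 < x + x := by linarith
  simp only [generic_ex_cast, generic_ex_last, hx', hx'', if_false, add_zero, Finset.sum_const_zero]

/-- extension of a vector at the front -/
def generic_co {n : ℕ} (c : ℝ) (u : Fin n → ℝ) : Fin (n + 1) → ℝ := Fin.cons (α := fun _ => ℝ) c u

theorem generic_co_succ {n : ℕ} (u : Fin n → ℝ) (c : ℝ) (i : Fin n) :
    generic_co c u (Fin.succ i) = u i := by
  simp [generic_co]

theorem generic_co_zero {n : ℕ} (u : Fin n → ℝ) (c : ℝ) :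
    generic_co c u 0 = c := by
  simp [generic_co]

theorem generic_theta_cons {n : ℕ} (h : Fin n → ℝ) (x : ℝ) (hx0 : 0 < x) (hx : ∀ a, 0 < h a + x)
    (a : Fin n) : theta (generic_co x h) (Fin.succ a) = theta h a + 1 := by
  unfold theta
  rw [Fin.sum_univ_succ]
  simp only [generic_co_succ, generic_co_zero, hx a, if_true]
  ring

theorem generic_theta_cons_zero {n : ℕ} (h : Fin n → ℝ) (x : ℝ) (hx0 : 0 < x)
    (hx : ∀ a, 0 < h a + x) : theta (generic_co x h) 0 = (n : ℝ) + 2 := by
  unfold theta
  rw [Fin.sum_univ_succ]
  have hx' : ∀ a, 0 < x + h a := fun a => by have := hx a; linarith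
  have hx'' : 0 < x + x := by linarith
  simp only [generic_co_succ, generic_co_zero, hx', hx'', if_true, Finset.sum_const,
    Finset.card_univ, Fintype.card_fin, nsmul_eq_mul]
  ring

theorem generic_id (N : ℕ) : ∀ (G : SimpleGraph (Fin (N + 1))) (b : Fin (N + 1) → Prop),
    (∀ i j, i < j → (G.Adj i j ↔ b j)) →
    ∃ h : Fin N → ℝ, StrictAnti h ∧ (∀ a b, h a + h b ≠ 0) ∧ Cert G (theta h) := by
  induction N with
  | zero =>
    intro G b hb
    refine ⟨Fin.elim0, fun a => a.elim0, fun a => a.elim0, ?_⟩
    rw [generic_cert_iff]
    exact ⟨Fin.elim0, fun a => a.elim0, fun a => a.elim0, fun a => a.elim0, fun a => a.elim0⟩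
  | succ N ih =>
    intro G b hb
    obtain ⟨h, hanti, hgen, hcert⟩ := ih (G.comap Fin.castSucc) (fun i => b (Fin.castSucc i)) (by
      intro i j hij
      rw [SimpleGraph.comap_adj]
      exact hb _ _ (Fin.castSucc_lt_castSucc_iff.mpr hij))
    rw [generic_cert_iff] at hcert
    obtain ⟨v, hv0, horth, hsum, hlap⟩ := hcert
    have habs : ∀ a, |h a| ≤ ∑ a, |h a| := fun a =>
      Finset.single_le_sum (f := fun a => |h a|) (fun a _ => abs_nonneg _) (Finset.mem_univ a)
    have hS : 0 ≤ ∑ a, |h a| := Finset.sum_nonneg (fun a _ => abs_nonneg _)
    have hNpos : (0 : ℝ) < (N : ℝ) + 1 := by positivity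
    have hnew0 : generic_ex (fun _ : Fin (N + 1) => (1 : ℝ)) (-((N : ℝ) + 1)) ≠ 0 := by
      intro h0
      have h1 := congrFun h0 (Fin.last (N + 1))
      rw [generic_ex_last] at h1
      simp only [Pi.zero_apply] at h1
      linarith
    have hold0 : ∀ a, generic_ex (v a) 0 ≠ 0 := by
      intro a h0
      apply hv0 a
      funext i
      have h1 := congrFun h0 (Fin.castSucc i)
      rw [generic_ex_cast] at h1
      exact h1
    have hold_orth : ∀ a b, a ≠ b → generic_ex (v a) 0 ⬝ᵥ generic_ex (v b) 0 = 0 := by
      intro a b hab
      rw [generic_ex_dot, horth a b hab]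
      simp
    have hnew_orth : ∀ a, generic_ex (v a) 0 ⬝ᵥ
        generic_ex (fun _ : Fin (N + 1) => (1 : ℝ)) (-((N : ℝ) + 1)) = 0 := by
      intro a
      rw [generic_ex_dot]
      simp only [dotProduct, mul_one, hsum a, zero_mul, add_zero]
    have hnew_orth' : ∀ a, generic_ex (fun _ : Fin (N + 1) => (1 : ℝ)) (-((N : ℝ) + 1)) ⬝ᵥ
        generic_ex (v a) 0 = 0 := by
      intro a
      rw [dotProduct_comm]
      exact hnew_orth a
    have hold_sum : ∀ a, ∑ x, generic_ex (v a) 0 x = 0 := by
      intro a
      rw [generic_ex_sum, hsum a, add_zero]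
    have hnew_sum : ∑ x, generic_ex (fun _ : Fin (N + 1) => (1 : ℝ)) (-((N : ℝ) + 1)) x = 0 := by
      rw [generic_ex_sum]
      simp
    by_cases hbl : b (Fin.last (N + 1))
    · have hB : ∀ i : Fin (N + 1), G.Adj (Fin.castSucc i) (Fin.last (N + 1)) := fun i =>
        (hb _ _ (Fin.castSucc_lt_last i)).mpr hbl
      have hx : ∀ a, 0 < h a + ((∑ a, |h a|) + 1) := by
        intro a
        have h1 := habs a
        have h2 := neg_abs_le (h a)
        linarith
      have hx0 : 0 < (∑ a, |h a|) + 1 := by linarith
      refine ⟨generic_co ((∑ a, |h a|) + 1) h, ?_, ?_, ?_⟩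
      · intro i j hij
        induction j using Fin.cases with
        | zero => exact absurd hij (Fin.not_lt_zero i)
        | succ j =>
          induction i using Fin.cases with
          | zero =>
            rw [generic_co_succ, generic_co_zero]
            have h1 := habs j
            have h2 := le_abs_self (h j)
            linarith
          | succ i =>
            rw [generic_co_succ, generic_co_succ]
            exact hanti (Fin.succ_lt_succ_iff.mp hij)
      · intro i j
        induction j using Fin.cases with
        | zero =>
          induction i using Fin.cases with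
          | zero =>
            rw [generic_co_zero]
            linarith
          | succ i =>
            rw [generic_co_succ, generic_co_zero]
            exact (hx i).ne'
        | succ j =>
          induction i using Fin.cases with
          | zero =>
            rw [generic_co_succ, generic_co_zero, add_comm]
            exact (hx j).ne'
          | succ i =>
            rw [generic_co_succ, generic_co_succ]
            exact hgen i j
      · rw [generic_cert_iff]
        refine ⟨Fin.cons (α := fun _ => Fin (N + 1 + 1) → ℝ)
          (generic_ex (fun _ : Fin (N + 1) => (1 : ℝ)) (-((N : ℝ) + 1)))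
          (fun a => generic_ex (v a) 0), ?_, ?_, ?_, ?_⟩
        · intro a
          induction a using Fin.cases with
          | zero => rw [Fin.cons_zero]; exact hnew0
          | succ a => rw [Fin.cons_succ]; exact hold0 a
        · intro a b hab
          induction a using Fin.cases with
          | zero =>
            induction b using Fin.cases with
            | zero => exact absurd rfl hab
            | succ b => rw [Fin.cons_zero, Fin.cons_succ]; exact hnew_orth' b
          | succ a =>
            induction b using Fin.cases with
            | zero => rw [Fin.cons_zero, Fin.cons_succ]; exact hnew_orth a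
            | succ b =>
              rw [Fin.cons_succ, Fin.cons_succ]
              exact hold_orth a b (fun h => hab (by rw [h]))
        · intro a
          induction a using Fin.cases with
          | zero => rw [Fin.cons_zero]; exact hnew_sum
          | succ a => rw [Fin.cons_succ]; exact hold_sum a
        · intro a x
          induction a using Fin.cases with
          | zero =>
            rw [Fin.cons_zero, generic_theta_cons_zero h _ hx0 hx]
            induction x using Fin.lastCases with
            | last =>
              rw [generic_lap_last_pos G hB, generic_ex_last]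
              simp only [Finset.sum_const, Finset.card_univ, Fintype.card_fin, nsmul_eq_mul,
                Nat.cast_add, Nat.cast_one]
              ring
            | cast x =>
              rw [generic_lap_cast_pos G hB, generic_ex_cast, generic_lap_const]
              ring
          | succ a =>
            rw [Fin.cons_succ, generic_theta_cons h _ hx0 hx]
            induction x using Fin.lastCases with
            | last =>
              rw [generic_lap_last_pos G hB, generic_ex_last, hsum a]
              ring
            | cast x =>
              rw [generic_lap_cast_pos G hB, generic_ex_cast, hlap a x]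
              ring
    · have hB : ∀ i : Fin (N + 1), ¬ G.Adj (Fin.castSucc i) (Fin.last (N + 1)) := fun i hadj =>
        hbl ((hb _ _ (Fin.castSucc_lt_last i)).mp hadj)
      have hx : ∀ a, h a + (-(∑ a, |h a|) - 1) < 0 := by
        intro a
        have h1 := habs a
        have h2 := le_abs_self (h a)
        linarith
      have hx0 : (-(∑ a, |h a|) - 1) < 0 := by linarith
      refine ⟨generic_ex h (-(∑ a, |h a|) - 1), ?_, ?_, ?_⟩
      · intro i j hij
        induction j using Fin.lastCases with
        | last =>
          induction i using Fin.lastCases with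
          | last => exact absurd hij (lt_irrefl _)
          | cast i =>
            rw [generic_ex_cast, generic_ex_last]
            have h1 := habs i
            have h2 := neg_abs_le (h i)
            linarith
        | cast j =>
          induction i using Fin.lastCases with
          | last => exact absurd hij (not_lt.mpr (Fin.le_last _))
          | cast i =>
            rw [generic_ex_cast, generic_ex_cast]
            exact hanti (Fin.castSucc_lt_castSucc_iff.mp hij)
      · intro i j
        induction j using Fin.lastCases with
        | last =>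
          induction i using Fin.lastCases with
          | last =>
            rw [generic_ex_last]
            linarith
          | cast i =>
            rw [generic_ex_cast, generic_ex_last]
            exact (hx i).ne
        | cast j =>
          induction i using Fin.lastCases with
          | last =>
            rw [generic_ex_cast, generic_ex_last, add_comm]
            exact (hx j).ne
          | cast i =>
            rw [generic_ex_cast, generic_ex_cast]
            exact hgen i j
      · rw [generic_cert_iff]
        refine ⟨Fin.snoc (α := fun _ => Fin (N + 1 + 1) → ℝ)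
          (fun a => generic_ex (v a) 0)
          (generic_ex (fun _ : Fin (N + 1) => (1 : ℝ)) (-((N : ℝ) + 1))), ?_, ?_, ?_, ?_⟩
        · intro a
          induction a using Fin.lastCases with
          | last => rw [Fin.snoc_last]; exact hnew0
          | cast a => rw [Fin.snoc_castSucc]; exact hold0 a
        · intro a b hab
          induction a using Fin.lastCases with
          | last =>
            induction b using Fin.lastCases with
            | last => exact absurd rfl hab
            | cast b => rw [Fin.snoc_last, Fin.snoc_castSucc]; exact hnew_orth' b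
          | cast a =>
            induction b using Fin.lastCases with
            | last => rw [Fin.snoc_last, Fin.snoc_castSucc]; exact hnew_orth a
            | cast b =>
              rw [Fin.snoc_castSucc, Fin.snoc_castSucc]
              exact hold_orth a b (fun h => hab (by rw [h]))
        · intro a
          induction a using Fin.lastCases with
          | last => rw [Fin.snoc_last]; exact hnew_sum
          | cast a => rw [Fin.snoc_castSucc]; exact hold_sum a
        · intro a x
          induction a using Fin.lastCases with
          | last =>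
            rw [Fin.snoc_last, generic_theta_snoc_last h _ hx0 hx, zero_mul]
            induction x using Fin.lastCases with
            | last => exact generic_lap_last_neg G hB _ _
            | cast x => rw [generic_lap_cast_neg G hB, generic_lap_const]
          | cast a =>
            rw [Fin.snoc_castSucc, generic_theta_snoc h _ hx0 hx]
            induction x using Fin.lastCases with
            | last => rw [generic_lap_last_neg G hB, generic_ex_last, mul_zero]
            | cast x => rw [generic_lap_cast_neg G hB, generic_ex_cast, hlap a x]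

theorem generic_transport {N : ℕ} (G : SimpleGraph (Fin (N + 1))) (σ : Equiv.Perm (Fin (N + 1)))
    (y : Fin N → ℝ) (h : Cert (G.comap σ) y) : Cert G y := by
  rw [generic_cert_iff] at h ⊢
  obtain ⟨v, hv0, horth, hsum, hlap⟩ := h
  refine ⟨fun a x => v a (σ.symm x), ?_, ?_, ?_, ?_⟩
  · intro a h0
    apply hv0 a
    funext x
    have h1 := congrFun h0 (σ x)
    simpa using h1
  · intro a b hab
    rw [← horth a b hab]
    simp only [dotProduct]
    exact Equiv.sum_comp σ.symm (fun x => v a x * v b x)
  · intro a
    rw [← hsum a]
    exact Equiv.sum_comp σ.symm (fun x => v a x)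
  · intro a x
    have h1 := hlap a (σ.symm x)
    rw [← h1]
    classical
    have h2 : generic_Lap (G.comap σ) (v a) (σ.symm x) =
        ∑ z, (if G.Adj (σ (σ.symm x)) (σ z) then (v a (σ.symm x) - v a z) else 0) := by
      unfold generic_Lap
      apply Finset.sum_congr rfl
      intro z _
      congr 1
    rw [h2, ← Equiv.sum_comp σ.symm]
    unfold generic_Lap
    apply Finset.sum_congr rfl
    intro z _
    simp only [Equiv.apply_symm_apply]

theorem generic_theta_anti {N : ℕ} (h : Fin N → ℝ) (hh : Antitone h) : Antitone (theta h) := by
  intro i j hij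
  have h1 := hh hij
  unfold theta
  apply add_le_add
  · apply Finset.sum_le_sum
    intro b _
    split_ifs with h2 h3
    · exact le_refl _
    · exact absurd (by linarith) h3
    · exact zero_le_one
    · exact le_refl _
  · split_ifs with h2 h3
    · exact le_refl _
    · exact absurd (by linarith) h3
    · exact zero_le_one
    · exact le_refl _

theorem generic_theta_nonneg {N : ℕ} (h : Fin N → ℝ) (a : Fin N) : 0 ≤ theta h a := by
  unfold theta
  apply add_nonneg
  · apply Finset.sum_nonneg
    intro b _
    split_ifs
    · exact zero_le_one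
    · exact le_refl _
  · split_ifs
    · exact zero_le_one
    · exact le_refl _

theorem generic_ext0_cast {N : ℕ} (y : Fin N → ℝ) (a : Fin N) :
    ext0 y (Fin.castSucc a) = y a := by
  simp [ext0]

theorem generic_ext0_last {N : ℕ} (y : Fin N → ℝ) :
    ext0 y (Fin.last N) = 0 := by
  simp [ext0]

theorem generic_lap_mulVec {n : ℕ} (G : SimpleGraph (Fin n)) [DecidableRel G.Adj] (v : Fin n → ℝ)
    (x : Fin n) : (G.lapMatrix ℝ).mulVec v x = generic_Lap G v x := by
  rw [SimpleGraph.lapMatrix_mulVec_apply]
  have h1 : generic_Lap G v x = ∑ z, (if z ∈ G.neighborFinset x then (v x - v z) else 0) := by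
    unfold generic_Lap
    apply Finset.sum_congr rfl
    intro z _
    by_cases hz : G.Adj x z
    · rw [if_pos hz, if_pos ((SimpleGraph.mem_neighborFinset _ _ _).mpr hz)]
    · rw [if_neg hz, if_neg (fun h => hz ((SimpleGraph.mem_neighborFinset _ _ _).mp h))]
  rw [h1, Finset.sum_ite_mem, Finset.univ_inter, Finset.sum_sub_distrib, Finset.sum_const,
    nsmul_eq_mul, SimpleGraph.card_neighborFinset_eq_degree]

theorem generic {N : ℕ} (G : SimpleGraph (Fin (N + 1))) (hG : IsThreshold G) :
    ∃ h : Fin N → ℝ, StrictAnti h ∧ (∀ a b, h a + h b ≠ 0) ∧ lam G = ext0 (theta h) := by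
  classical
  obtain ⟨σ, b, hb⟩ := hG
  obtain ⟨h, hanti, hgen, hcert⟩ := generic_id N (G.comap σ) b (by
    intro i j hij
    rw [SimpleGraph.comap_adj]
    exact hb i j hij)
  refine ⟨h, hanti, hgen, ?_⟩
  have hcert' := generic_transport G σ _ hcert
  rw [generic_cert_iff] at hcert'
  obtain ⟨v, hv0, horth, hsum, hlap⟩ := hcert'
  refine lam_eq_of_eigen G (Fin.snoc (α := fun _ => Fin (N + 1) → ℝ) v (fun _ => 1)) _ ?_ ?_ ?_ ?_
  · intro a
    induction a using Fin.lastCases with
    | last =>
      rw [Fin.snoc_last]
      intro h0
      have h1 := congrFun h0 0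
      simp at h1
    | cast a => rw [Fin.snoc_castSucc]; exact hv0 a
  · intro a b hab
    induction a using Fin.lastCases with
    | last =>
      induction b using Fin.lastCases with
      | last => exact absurd rfl hab
      | cast b =>
        rw [Fin.snoc_last, Fin.snoc_castSucc]
        simp only [dotProduct, one_mul]
        exact hsum b
    | cast a =>
      induction b using Fin.lastCases with
      | last =>
        rw [Fin.snoc_last, Fin.snoc_castSucc]
        simp only [dotProduct, mul_one]
        exact hsum a
      | cast b =>
        rw [Fin.snoc_castSucc, Fin.snoc_castSucc]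
        exact horth a b (fun h => hab (by rw [h]))
  · intro a
    funext x
    rw [generic_lap_mulVec, Pi.smul_apply, smul_eq_mul]
    induction a using Fin.lastCases with
    | last =>
      rw [Fin.snoc_last, generic_ext0_last, generic_lap_const, zero_mul]
    | cast a =>
      rw [Fin.snoc_castSucc, generic_ext0_cast]
      exact hlap a x
  · intro i j hij
    induction j using Fin.lastCases with
    | last =>
      rw [generic_ext0_last]
      induction i using Fin.lastCases with
      | last => rw [generic_ext0_last]
      | cast i => rw [generic_ext0_cast]; exact generic_theta_nonneg h i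
    | cast j =>
      induction i using Fin.lastCases with
      | last => exact absurd hij (not_le.mpr (Fin.castSucc_lt_last j))
      | cast i =>
        rw [generic_ext0_cast, generic_ext0_cast]
        exact generic_theta_anti h hanti.antitone (Fin.castSucc_le_castSucc_iff.mp hij)

end Pool.Agent.Helper93.EP.R6
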