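import Pool.Agent.Helper93.EP.T3b

set_option autoImplicit false

namespace Pool.Agent.Helper93.EP
open scoped BigOperators


theorem unique_max_theta {N : ℕ} (h g : Fin N → ℝ)
    (hs : ∀ b c, 0 < g b + g c ↔ 0 < h b + h c) (a : Fin N) : theta g a = theta h a := by
  unfold theta
  simp only [hs]

theorem unique_max_eps {N : ℕ} (h : Fin N → ℝ) (hh : StrictAnti h) (hne : ∀ a b, h a + h b ≠ 0) :
    ∃ ε : ℝ, 0 < ε ∧ (∀ b c, b < c → ε ≤ h b - h c) ∧ (∀ b c, 2 * ε < |h b + h c|) := by
  have h1 : ∀ᶠ ε in nhdsWithin (0 : ℝ) (Set.Ioi 0), ∀ b c, b < c → ε ≤ h b - h c := by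
    refine Filter.eventually_all.2 fun b => Filter.eventually_all.2 fun c => ?_
    by_cases hbc : b < c
    · have hpos : 0 < h b - h c := sub_pos.2 (hh hbc)
      filter_upwards [Ioo_mem_nhdsGT hpos] with ε hε _
      exact hε.2.le
    · exact Filter.Eventually.of_forall fun ε hc => absurd hc hbc
  have h2 : ∀ᶠ ε in nhdsWithin (0 : ℝ) (Set.Ioi 0), ∀ b c, 2 * ε < |h b + h c| := by
    refine Filter.eventually_all.2 fun b => Filter.eventually_all.2 fun c => ?_
    have hpos : 0 < |h b + h c| / 2 := half_pos (abs_pos.2 (hne b c))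
    filter_upwards [Ioo_mem_nhdsGT hpos] with ε hε
    have := hε.2
    linarith
  have h3 : ∀ᶠ ε in nhdsWithin (0 : ℝ) (Set.Ioi 0), 0 < ε := self_mem_nhdsWithin
  obtain ⟨ε, e1, e2, e3⟩ := (h3.and (h1.and h2)).exists
  exact ⟨ε, e1, e2, e3⟩

theorem unique_max {N : ℕ} (h : Fin N → ℝ) (hh : StrictAnti h) (hne : ∀ a b, h a + h b ≠ 0)
    (y : Fin N → ℝ) (hy : ∀ g : Fin N → ℝ, Antitone g → ∑ a, g a * y a ≤ Phi g)
    (heq : Phi h ≤ ∑ a, h a * y a) : y = theta h := by
  classical
  obtain ⟨ε, hε, h1, h2⟩ := unique_max_eps h hh hne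
  funext a
  have key : ∀ δ : ℝ, |δ| ≤ ε → δ * y a ≤ δ * theta h a := by
    intro δ hδ
    set g : Fin N → ℝ := fun b => h b + (if b = a then δ else 0) with hg
    have hd := abs_le.1 hδ
    have hanti : Antitone g := by
      intro b c hbc
      rcases hbc.eq_or_lt with h3 | h3
      · rw [h3]
      · have h4 := h1 b c h3
        simp only [hg]
        by_cases hb : b = a
        · have hc : c ≠ a := fun hc => h3.ne (hb.trans hc.symm)
          rw [if_pos hb, if_neg hc]
          linarith
        · rw [if_neg hb]
          split_ifs <;> linarith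
    have hab : ∀ b, |g b - h b| ≤ ε := by
      intro b
      simp only [hg]
      split_ifs
      · simpa using hδ
      · simpa using hε.le
    have hsgn : ∀ b c, 0 < g b + g c ↔ 0 < h b + h c := by
      intro b c
      have h5 := abs_le.1 (hab b)
      have h6 := abs_le.1 (hab c)
      have h7 := h2 b c
      constructor
      · intro h8
        by_contra h9
        rw [abs_of_nonpos (not_lt.1 h9)] at h7
        linarith
      · intro h8
        rw [abs_of_pos h8] at h7
        linarith
    have h10 := hy g hanti
    rw [Phi_eq g] at h10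
    rw [Phi_eq h] at heq
    have h11 : ∑ b, g b * theta g b = ∑ b, h b * theta h b + δ * theta h a := by
      have : ∀ b, g b * theta g b = h b * theta h b + (if b = a then δ * theta h a else 0) := by
        intro b
        rw [unique_max_theta h g hsgn b]
        simp only [hg]
        split_ifs with hb
        · rw [hb]; ring
        · ring
      rw [Finset.sum_congr rfl fun b _ => this b, Finset.sum_add_distrib]
      simp
    have h12 : ∑ b, g b * y b = ∑ b, h b * y b + δ * y a := by
      have : ∀ b, g b * y b = h b * y b + (if b = a then δ * y a else 0) := by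
        intro b
        simp only [hg]
        split_ifs with hb
        · rw [hb]; ring
        · ring
      rw [Finset.sum_congr rfl fun b _ => this b, Finset.sum_add_distrib]
      simp
    rw [h11, h12] at h10
    linarith
  have k1 := key ε (by rw [abs_of_pos hε])
  have k2 := key (-ε) (by rw [abs_neg, abs_of_pos hε])
  have k3 : y a ≤ theta h a := le_of_mul_le_mul_left k1 hε
  have k4 : theta h a ≤ y a := by
    refine le_of_mul_le_mul_left ?_ hε
    linarith
  exact le_antisymm k3 k4

end Pool.Agent.Helper93.EP
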