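import Pool.Agent.Helper93.EP.T3
import Pool.Agent.Helper93.EP.T4
import Pool.Agent.Helper93.EP.T5
import Pool.Agent.Helper93.EP.T6
import Pool.Agent.Helper93.EP.T8
import Pool.Agent.Helper93.EP.T11
set_option autoImplicit false
namespace Pool.Agent.Helper93.EP
open scoped BigOperators

/-- the set of spectra of threshold graphs -/
def Tset (n : ℕ) : Set (Fin n → ℝ) := {x | ∃ G : SimpleGraph (Fin n), IsThreshold G ∧ lam G = x}

theorem ext0_castSucc {N : ℕ} (y : Fin N → ℝ) (a : Fin N) : ext0 y a.castSucc = y a := by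
  simp [ext0]

theorem ext0_last {N : ℕ} (y : Fin N → ℝ) : ext0 y (Fin.last N) = 0 := by
  simp [ext0]

theorem eq_ext0 {N : ℕ} (x : Fin (N + 1) → ℝ) (h0 : x (Fin.last N) = 0) (y : Fin N → ℝ)
    (h : (fun a : Fin N => x a.castSucc) = y) : x = ext0 y := by
  funext k
  refine Fin.lastCases ?_ (fun a => ?_) k
  · rw [h0, ext0_last]
  · rw [ext0_castSucc, ← h]

theorem maj_lam {N : ℕ} (G : SimpleGraph (Fin (N + 1))) (h : Fin N → ℝ) (hh : Antitone h) :
    ∑ a : Fin N, h a * lam G a.castSucc ≤ Phi h := by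
  refine maj (fun a : Fin N => lam G a.castSucc) ?_ h hh
  intro i j hij hj
  have hc := core G i j hij (by omega)
  have e1 : ∀ i : ℕ, i ≤ N → (∑ a : Fin (N + 1), if (a : ℕ) < i then lam G a else 0) =
      ∑ a : Fin N, if (a : ℕ) < i then lam G a.castSucc else 0 := by
    intro i hi
    rw [Fin.sum_univ_castSucc]
    have : ¬ ((Fin.last N : Fin (N+1)) : ℕ) < i := by simp; omega
    rw [if_neg this, add_zero]
    rfl
  rw [e1 i (by omega), e1 j hj, Fin.sum_univ_castSucc, lam_last, add_zero] at hc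
  exact hc

theorem Tset_finite (n : ℕ) : (Tset n).Finite := by
  have : Tset n ⊆ Set.range (lam (n := n)) := by
    rintro x ⟨G, -, rfl⟩
    exact ⟨G, rfl⟩
  exact (Set.finite_range _).subset this

theorem lam_mem_hull {N : ℕ} (G : SimpleGraph (Fin (N + 1))) :
    lam G ∈ convexHull ℝ (Tset (N + 1)) := by
  by_contra hcon
  have hcl : IsClosed (convexHull ℝ (Tset (N + 1))) :=
    ((Tset_finite (N + 1)).isCompact_convexHull ℝ).isClosed
  obtain ⟨f, u, h1, h2⟩ := geometric_hahn_banach_closed_point (convex_convexHull ℝ _) hcl hcon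
  set c : Fin N → ℝ := fun a => f (Pi.single a.castSucc 1) with hc
  have hf : ∀ x : Fin (N + 1) → ℝ, x (Fin.last N) = 0 → f x = ∑ a : Fin N, c a * x a.castSucc := by
    intro x hx
    have hx' : x = ∑ k : Fin (N + 1), x k • (Pi.single k (1 : ℝ) : Fin (N + 1) → ℝ) := by
      funext k
      simp [Finset.sum_apply, Pi.single_apply]
    conv_lhs => rw [hx']
    rw [map_sum, Fin.sum_univ_castSucc, hx, zero_smul, map_zero, add_zero]
    refine Finset.sum_congr rfl fun a _ => ?_
    rw [map_smul, smul_eq_mul, mul_comm]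
  obtain ⟨h, hh, hle, heq⟩ := proj c
  obtain ⟨G0, hG0, hl⟩ := R5.realize h hh
  have hy : Antitone (fun a : Fin N => lam G a.castSucc) := fun a b hab =>
    lam_antitone G (Fin.castSucc_le_castSucc_iff.2 hab)
  have k1 := hle _ hy
  have k2 := maj_lam G h hh
  have k3 := h1 (lam G0) (subset_convexHull ℝ _ ⟨G0, hG0, rfl⟩)
  rw [hf (lam G) (lam_last G)] at h2
  rw [hf (lam G0) (lam_last G0), hl] at k3
  have k4 : ∑ a : Fin N, c a * ext0 (theta h) a.castSucc = ∑ a, c a * theta h a :=
    Finset.sum_congr rfl fun a _ => by rw [ext0_castSucc]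
  rw [k4, heq, ← Phi_eq] at k3
  linarith

theorem P_eq {N : ℕ} : P (N + 1) = convexHull ℝ (Tset (N + 1)) := by
  apply Set.Subset.antisymm
  · apply convexHull_min
    · rintro _ ⟨G, rfl⟩
      exact lam_mem_hull G
    · exact convex_convexHull ℝ _
  · apply convexHull_mono
    rintro x ⟨G, -, rfl⟩
    exact ⟨G, rfl⟩

theorem P_maj {N : ℕ} (y : Fin (N + 1) → ℝ) (hy : y ∈ P (N + 1)) :
    y (Fin.last N) = 0 ∧ ∀ g : Fin N → ℝ, Antitone g → ∑ a, g a * y a.castSucc ≤ Phi g := by
  have hsub : P (N + 1) ⊆ {y : Fin (N + 1) → ℝ | y (Fin.last N) = 0 ∧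
      ∀ g : Fin N → ℝ, Antitone g → ∑ a, g a * y a.castSucc ≤ Phi g} := by
    apply convexHull_min
    · rintro _ ⟨G, rfl⟩
      exact ⟨lam_last G, fun g hg => maj_lam G g hg⟩
    · intro x hx z hz a b ha hb hab
      refine ⟨?_, fun g hg => ?_⟩
      · simp [hx.1, hz.1]
      · have e : ∑ i, g i * (a • x + b • z) i.castSucc =
            a * ∑ i, g i * x i.castSucc + b * ∑ i, g i * z i.castSucc := by
          rw [Finset.mul_sum, Finset.mul_sum, ← Finset.sum_add_distrib]
          refine Finset.sum_congr rfl fun i _ => ?_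
          simp only [Pi.add_apply, Pi.smul_apply, smul_eq_mul]
          ring
        rw [e]
        have h1 := mul_le_mul_of_nonneg_left (hx.2 g hg) ha
        have h2 := mul_le_mul_of_nonneg_left (hz.2 g hg) hb
        have h3 : a * Phi g + b * Phi g = Phi g := by rw [← add_mul, hab, one_mul]
        linarith
  exact hsub hy

theorem mem_extreme {N : ℕ} (G : SimpleGraph (Fin (N + 1))) (hG : IsThreshold G) :
    lam G ∈ (P (N + 1)).extremePoints ℝ := by
  obtain ⟨h, hh, hne, hl⟩ := R6.generic G hG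
  have hval : ∀ y ∈ P (N + 1), Phi h ≤ ∑ a, h a * y a.castSucc → y = lam G := by
    intro y hy hle
    obtain ⟨h0, h1⟩ := P_maj y hy
    have := unique_max h hh hne (fun a => y a.castSucc) h1 hle
    rw [hl]
    exact eq_ext0 y h0 _ this
  have hG1 : ∑ a, h a * lam G a.castSucc = Phi h := by
    rw [hl, Phi_eq]
    exact Finset.sum_congr rfl fun a _ => by rw [ext0_castSucc]
  rw [mem_extremePoints]
  refine ⟨subset_convexHull ℝ _ ⟨G, rfl⟩, ?_⟩
  rintro x hx z hz ⟨a, b, ha, hb, hab, he⟩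
  have e : ∑ i, h i * lam G i.castSucc =
      a * ∑ i, h i * x i.castSucc + b * ∑ i, h i * z i.castSucc := by
    rw [← he, Finset.mul_sum, Finset.mul_sum, ← Finset.sum_add_distrib]
    refine Finset.sum_congr rfl fun i _ => ?_
    simp only [Pi.add_apply, Pi.smul_apply, smul_eq_mul]
    ring
  have m1 := (P_maj x hx).2 h hh.antitone
  have m2 := (P_maj z hz).2 h hh.antitone
  rw [hG1] at e
  have hx' : Phi h ≤ ∑ i, h i * x i.castSucc := by
    by_contra hlt
    push Not at hlt
    have h3 := mul_lt_mul_of_pos_left hlt ha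
    have h4 := mul_le_mul_of_nonneg_left m2 hb.le
    have h5 : a * Phi h + b * Phi h = Phi h := by rw [← add_mul, hab, one_mul]
    linarith
  have hz' : Phi h ≤ ∑ i, h i * z i.castSucc := by
    by_contra hlt
    push Not at hlt
    have h3 := mul_lt_mul_of_pos_left hlt hb
    have h4 := mul_le_mul_of_nonneg_left m1 ha.le
    have h5 : a * Phi h + b * Phi h = Phi h := by rw [← add_mul, hab, one_mul]
    linarith
  exact ⟨hval x hx hx', hval z hz hz'⟩

theorem extreme_eq {N : ℕ} : (P (N + 1)).extremePoints ℝ = Tset (N + 1) := by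
  apply Set.Subset.antisymm
  · rw [P_eq]
    exact extremePoints_convexHull_subset
  · rintro _ ⟨G, hG, rfl⟩
    exact mem_extreme G hG

theorem main (n : ℕ) (hn : 1 ≤ n) :
    (P n).extremePoints ℝ = {x | ∃ G : SimpleGraph (Fin n), IsThreshold G ∧ lam G = x} ∧
    (∀ G : SimpleGraph (Fin n), lam G ∈ (P n).extremePoints ℝ ↔ IsThreshold G) := by
  obtain ⟨N, rfl⟩ : ∃ N, n = N + 1 := ⟨n - 1, by omega⟩
  refine ⟨extreme_eq, fun G => ⟨fun h => ?_, fun h => mem_extreme G h⟩⟩
  rw [extreme_eq] at h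
  obtain ⟨T, hT, he⟩ := h
  exact thr_of_lam_eq G T hT he.symm

end Pool.Agent.Helper93.EP
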