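import Pool.Agent.Helper93.EP.Defs

set_option autoImplicit false

namespace Pool.Agent.Helper93.EP
open scoped BigOperators

open Polynomial in
theorem charpoly_of_eigen {n : ℕ} (A : Matrix (Fin n) (Fin n) ℝ)
    (v : Fin n → (Fin n → ℝ)) (μ : Fin n → ℝ)
    (hv : ∀ a, v a ≠ 0) (horth : ∀ a b, a ≠ b → (v a) ⬝ᵥ (v b) = 0)
    (heig : ∀ a, A.mulVec (v a) = μ a • v a) :
    A.charpoly = ∏ a, (X - C (μ a)) := by
  set V : Matrix (Fin n) (Fin n) ℝ := Matrix.of (fun i a => v a i) with hV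
  have h1 : A * V = V * Matrix.diagonal μ := by
    ext i a
    rw [Matrix.mul_diagonal]
    have := congrFun (heig a) i
    simp only [Matrix.mulVec, dotProduct, Pi.smul_apply, smul_eq_mul] at this
    rw [Matrix.mul_apply]
    simp only [hV, Matrix.of_apply]
    rw [this]
    ring
  have hne : ∀ a, v a ⬝ᵥ v a ≠ 0 := by
    intro a h
    exact hv a (dotProduct_self_eq_zero.1 h)
  set W : Matrix (Fin n) (Fin n) ℝ := Matrix.diagonal (fun a => (v a ⬝ᵥ v a)⁻¹) * V.transpose with hW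
  have h2 : W * V = 1 := by
    ext a b
    rw [hW, Matrix.mul_assoc, Matrix.diagonal_mul, Matrix.mul_apply]
    have e : ∑ j, V.transpose a j * V j b = v a ⬝ᵥ v b := rfl
    rw [e]
    by_cases hab : a = b
    · subst hab
      rw [Matrix.one_apply_eq, inv_mul_cancel₀ (hne a)]
    · rw [Matrix.one_apply_ne hab, horth a b hab, mul_zero]
  have h3 : V * W = 1 := mul_eq_one_comm.1 h2
  have h4 : A = (V * Matrix.diagonal μ) * W := by
    rw [← h1, Matrix.mul_assoc, h3, Matrix.mul_one]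
  rw [h4, Matrix.charpoly_mul_comm, ← Matrix.mul_assoc, h2, Matrix.one_mul, Matrix.charpoly_diagonal]

theorem eig0_of_eigen {n : ℕ} (A : Matrix (Fin n) (Fin n) ℝ) (hA : A.IsHermitian)
    (v : Fin n → (Fin n → ℝ)) (μ : Fin n → ℝ)
    (hv : ∀ a, v a ≠ 0) (horth : ∀ a b, a ≠ b → (v a) ⬝ᵥ (v b) = 0)
    (heig : ∀ a, A.mulVec (v a) = μ a • v a) (hμ : Antitone μ) :
    (fun k : Fin n => hA.eigenvalues₀ (Fin.cast (Fintype.card_fin n).symm k)) = μ := by
  have h1 := hA.sort_roots_charpoly_eq_eigenvalues₀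
  rw [charpoly_of_eigen A v μ hv horth heig] at h1
  have h2 : (∏ a, (Polynomial.X - Polynomial.C (μ a))).roots = Multiset.map μ Finset.univ.val := by
    rw [Polynomial.roots_prod]
    · simp
    · simp [Finset.prod_ne_zero_iff, Polynomial.X_sub_C_ne_zero]
  rw [h2] at h1
  have h3 : ((Multiset.map μ Finset.univ.val).map (RCLike.re : ℝ → ℝ)).sort (· ≥ ·) = List.ofFn μ := by
    simp_rw [Fin.univ_val_map, Multiset.map_coe, List.map_ofFn, Function.comp_def, RCLike.re_to_real,
      Multiset.coe_sort]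
    apply List.mergeSort_of_pairwise
    simp_rw [decide_eq_true_eq, ← List.sortedGE_iff_pairwise]
    exact hμ.sortedGE_ofFn
  rw [h3] at h1
  rw [← List.ofFn_inj, h1]
  exact (List.ofFn_congr (Fintype.card_fin n) hA.eigenvalues₀).symm

theorem lam_eq_of_eigen {n : ℕ} (G : SimpleGraph (Fin n)) [DecidableRel G.Adj]
    (v : Fin n → (Fin n → ℝ)) (μ : Fin n → ℝ)
    (hv : ∀ a, v a ≠ 0) (horth : ∀ a b, a ≠ b → (v a) ⬝ᵥ (v b) = 0)
    (heig : ∀ a, (G.lapMatrix ℝ).mulVec (v a) = μ a • v a) (hμ : Antitone μ) :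
    lam G = μ := by
  rename_i inst
  obtain rfl : inst = (fun a b => Classical.propDecidable (G.Adj a b)) := Subsingleton.elim _ _
  exact eig0_of_eigen _ _ v μ hv horth heig hμ

theorem lam_antitone {n : ℕ} (G : SimpleGraph (Fin n)) : Antitone (lam G) := by
  classical
  intro a b hab
  unfold lam
  apply Matrix.IsHermitian.eigenvalues₀_antitone
  exact hab

theorem lam_nonneg {n : ℕ} (G : SimpleGraph (Fin n)) (a : Fin n) : 0 ≤ lam G a := by
  classical
  have h := (SimpleGraph.posSemidef_lapMatrix ℝ G).eigenvalues_nonneg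
  have h2 := h ((Fintype.equivOfCardEq (Fintype.card_fin _)) (Fin.cast (Fintype.card_fin n).symm a))
  unfold Matrix.IsHermitian.eigenvalues at h2
  rw [Equiv.symm_apply_apply] at h2
  unfold lam
  convert h2


end Pool.Agent.Helper93.EP
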