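import Pool.Agent.Helper93.EP.Defs

set_option autoImplicit false

namespace Pool.Agent.Helper93.EP
open scoped BigOperators

theorem lam_antitone {n : ℕ} (G : SimpleGraph (Fin n)) : Antitone (lam G) := by
  intro a b hab
  unfold lam
  exact Matrix.IsHermitian.eigenvalues₀_antitone _ hab


theorem lam_nonneg {n : ℕ} (G : SimpleGraph (Fin n)) (a : Fin n) : 0 ≤ lam G a := by
  classical
  unfold lam
  have h := (SimpleGraph.posSemidef_lapMatrix ℝ G).eigenvalues_nonneg
    ((Fintype.equivOfCardEq (Fintype.card_fin _)) (Fin.cast (Fintype.card_fin n).symm a))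
  unfold Matrix.IsHermitian.eigenvalues at h
  rw [Equiv.symm_apply_apply] at h
  convert h


theorem lam_last {N : ℕ} (G : SimpleGraph (Fin (N+1))) : lam G (Fin.last N) = 0 := by
  classical
  have hdet : (G.lapMatrix ℝ).det = 0 := by
    rw [← Matrix.exists_mulVec_eq_zero_iff]
    refine ⟨fun _ => 1, ?_, SimpleGraph.lapMatrix_mulVec_const_eq_zero (R := ℝ) G⟩
    intro h
    have := congrFun h 0
    simp at this
  have hprod := (G.isHermitian_lapMatrix ℝ).det_eq_prod_eigenvalues
  rw [hdet] at hprod
  have hprod' : ∏ i, (G.isHermitian_lapMatrix ℝ).eigenvalues i = 0 := by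
    have := hprod.symm
    exact_mod_cast this
  obtain ⟨i, -, hi⟩ := Finset.prod_eq_zero_iff.mp hprod'
  have hle : lam G (Fin.last N) ≤ (G.isHermitian_lapMatrix ℝ).eigenvalues i := by
    have h2 := lam_antitone G (Fin.le_last (Fin.cast (Fintype.card_fin (N + 1))
      ((Fintype.equivOfCardEq (Fintype.card_fin _)).symm i)))
    refine h2.trans (le_of_eq ?_)
    unfold lam Matrix.IsHermitian.eigenvalues
    convert rfl
    rfl
  rw [hi] at hle
  exact le_antisymm hle (lam_nonneg G _)


end Pool.Agent.Helper93.EP
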