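import Pool.Agent.Helper93.EP.Defs

set_option autoImplicit false

namespace Pool.Agent.Helper93.EP
open scoped BigOperators

theorem lowerset_aux {N : ℕ} (p : Fin N → Prop) (hp : ∀ a b, a ≤ b → p b → p a) :
    ∃ i : ℕ, i ≤ N ∧ ∀ a : Fin N, p a ↔ (a : ℕ) < i := by
  classical
  by_cases h : ∃ m, ∃ hm : m < N, ¬ p ⟨m, hm⟩
  · refine ⟨Nat.find h, ?_, ?_⟩
    · obtain ⟨hm, _⟩ := Nat.find_spec h
      exact hm.le
    · intro a
      constructor
      · intro ha
        by_contra hc
        rw [not_lt] at hc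
        obtain ⟨hm, hnp⟩ := Nat.find_spec h
        exact hnp (hp ⟨_, hm⟩ a hc ha)
      · intro ha
        by_contra hc
        exact Nat.find_min h ha ⟨a.2, hc⟩
  · push Not at h
    exact ⟨N, le_rfl, fun a => ⟨fun _ => a.2, fun _ => h a a.2⟩⟩

theorem sum_ind_aux {N i : ℕ} (hi : i ≤ N) :
    (∑ a : Fin N, if (a : ℕ) < i then (1 : ℝ) else 0) = i := by
  rw [Fin.sum_univ_eq_sum_range (fun k => if k < i then (1 : ℝ) else 0) N]
  rw [← Finset.sum_filter]
  have : (Finset.range N).filter (fun k => k < i) = Finset.range i := by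
    ext k
    simp only [Finset.mem_filter, Finset.mem_range]
    omega
  rw [this]
  simp

theorem maj_g_aux {N : ℕ} (y : Fin N → ℝ)
    (hy : ∀ i j : ℕ, i ≤ j → j ≤ N →
      (∑ a : Fin N, if (a : ℕ) < i then y a else 0) + (∑ a : Fin N, if (a : ℕ) < j then y a else 0)
        ≤ (∑ a : Fin N, y a) + (i : ℝ) * ((j : ℝ) + 1))
    (i j : ℕ) (hij : i ≤ j) (hj : j ≤ N) (g : Fin N → ℝ)
    (hg : ∀ a, g a = (if (a : ℕ) < i then (1 : ℝ) else 0) + (if (a : ℕ) < j then (1 : ℝ) else 0) - 1) :
    ∑ a, g a * y a ≤ Phi g := by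
  have hPhi : Phi g = (i : ℝ) * ((j : ℝ) + 1) := by
    unfold Phi
    have h1 : ∀ a b, max (g a + g b) 0 =
        (if (a : ℕ) < i then (1 : ℝ) else 0) * (if (b : ℕ) < j then (1 : ℝ) else 0)
        + (if (a : ℕ) < j then (1 : ℝ) else 0) * (if (b : ℕ) < i then (1 : ℝ) else 0) := by
      intro a b
      rw [hg a, hg b]
      split_ifs <;> first | (exfalso; omega) | norm_num
    have h2 : ∀ a, max (g a + g a) 0 = 2 * (if (a : ℕ) < i then (1 : ℝ) else 0) := by
      intro a
      rw [hg a]
      split_ifs <;> first | (exfalso; omega) | norm_num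
    have h3 : (∑ a : Fin N, ∑ b : Fin N, max (g a + g b) 0) = (i : ℝ) * j + j * i := by
      simp_rw [h1, Finset.sum_add_distrib, ← Finset.mul_sum]
      rw [← Finset.sum_mul, ← Finset.sum_mul, sum_ind_aux hj, sum_ind_aux (hij.trans hj)]
    have h4 : (∑ a : Fin N, max (g a + g a) 0) = 2 * (i : ℝ) := by
      simp_rw [h2, ← Finset.mul_sum]
      rw [sum_ind_aux (hij.trans hj)]
    rw [h3, h4]
    ring
  rw [hPhi]
  have h5 := hy i j hij hj
  have h6 : ∑ a, g a * y a = (∑ a : Fin N, if (a : ℕ) < i then y a else 0)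
      + (∑ a : Fin N, if (a : ℕ) < j then y a else 0) - ∑ a : Fin N, y a := by
    rw [← Finset.sum_add_distrib, ← Finset.sum_sub_distrib]
    apply Finset.sum_congr rfl
    intro a _
    rw [hg a]
    split_ifs <;> ring
  linarith

theorem maj {N : ℕ} (y : Fin N → ℝ)
    (hy : ∀ i j : ℕ, i ≤ j → j ≤ N →
      (∑ a : Fin N, if (a : ℕ) < i then y a else 0) + (∑ a : Fin N, if (a : ℕ) < j then y a else 0)
        ≤ (∑ a : Fin N, y a) + (i : ℝ) * ((j : ℝ) + 1))
    (h : Fin N → ℝ) (hh : Antitone h) :
    ∑ a, h a * y a ≤ Phi h := by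
  classical
  suffices H : ∀ k : ℕ, ∀ h : Fin N → ℝ, Antitone h →
      (Finset.univ.filter (fun a => h a ≠ 0)).card = k → ∑ a, h a * y a ≤ Phi h from H _ h hh rfl
  intro k
  induction k using Nat.strong_induction_on with
  | _ k ih =>
    intro h hh hk
    by_cases hz : ∃ a, h a ≠ 0
    · have hF : (Finset.univ.filter (fun a => h a ≠ 0)).Nonempty := by
        obtain ⟨a, ha⟩ := hz
        exact ⟨a, by simpa using ha⟩
      obtain ⟨a0, ha0, hmin⟩ := Finset.exists_min_image _ (fun a => |h a|) hF
      have ha0' : h a0 ≠ 0 := by simpa using ha0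
      obtain ⟨s, hsdef⟩ : ∃ s, s = |h a0| := ⟨_, rfl⟩
      have hs : 0 < s := by rw [hsdef]; exact abs_pos.mpr ha0'
      have hmin' : ∀ a, h a ≠ 0 → s ≤ |h a| := by
        intro a ha
        rw [hsdef]
        exact hmin a (by simpa using ha)
      obtain ⟨g, hgdef⟩ : ∃ g : Fin N → ℝ, ∀ a, g a = (if 0 < h a then (1 : ℝ) else 0)
        + (if 0 ≤ h a then (1 : ℝ) else 0) - 1 := ⟨_, fun _ => rfl⟩
      have key : ∀ a, (s ≤ h a ∧ g a = 1) ∨ (h a = 0 ∧ g a = 0) ∨ (h a ≤ -s ∧ g a = -1) := by
        intro a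
        rcases lt_trichotomy (h a) 0 with hlt | heq | hgt
        · right; right
          have h1 := hmin' a hlt.ne
          rw [abs_of_neg hlt] at h1
          refine ⟨by linarith, ?_⟩
          rw [hgdef, if_neg (not_lt.mpr hlt.le), if_neg (not_le.mpr hlt)]
          norm_num
        · right; left
          refine ⟨heq, ?_⟩
          rw [hgdef, heq]
          simp
        · left
          have h1 := hmin' a hgt.ne'
          rw [abs_of_pos hgt] at h1
          refine ⟨h1, ?_⟩
          rw [hgdef, if_pos hgt, if_pos hgt.le]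
          norm_num
      obtain ⟨h1, hh1⟩ : ∃ h1 : Fin N → ℝ, ∀ a, h1 a = h a - s * g a := ⟨_, fun _ => rfl⟩
      have hanti : Antitone h1 := by
        intro a b hab
        have hab' := hh hab
        rw [hh1, hh1]
        rcases key a with ⟨ka, ga⟩ | ⟨ka, ga⟩ | ⟨ka, ga⟩ <;>
        rcases key b with ⟨kb, gb⟩ | ⟨kb, gb⟩ | ⟨kb, gb⟩ <;> rw [ga, gb] <;> linarith
      have hmax : ∀ a b, max (h a + h b) 0 = s * max (g a + g b) 0 + max (h1 a + h1 b) 0 := by
        intro a b
        rw [hh1, hh1]
        rcases key a with ⟨ka, ga⟩ | ⟨ka, ga⟩ | ⟨ka, ga⟩ <;>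
        rcases key b with ⟨kb, gb⟩ | ⟨kb, gb⟩ | ⟨kb, gb⟩ <;> rw [ga, gb] <;>
        simp only [max_def] <;> split_ifs <;> linarith
      have hPhi : Phi h = s * Phi g + Phi h1 := by
        unfold Phi
        simp_rw [hmax, Finset.sum_add_distrib, ← Finset.mul_sum]
        ring
      have hcard : (Finset.univ.filter (fun a => h1 a ≠ 0)).card < k := by
        rw [← hk]
        apply Finset.card_lt_card
        rw [Finset.ssubset_iff_of_subset]
        · refine ⟨a0, by simpa using ha0', ?_⟩
          simp only [Finset.mem_filter, Finset.mem_univ, true_and, not_not]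
          rw [hh1]
          rcases key a0 with ⟨ka, ga⟩ | ⟨ka, ga⟩ | ⟨ka, ga⟩
          · rw [ga, hsdef, abs_of_pos (by linarith)]
            ring
          · exact absurd ka ha0'
          · rw [ga, hsdef, abs_of_neg (by linarith)]
            ring
        · intro a ha
          simp only [Finset.mem_filter, Finset.mem_univ, true_and] at ha ⊢
          intro h0
          apply ha
          rw [hh1]
          rcases key a with ⟨ka, ga⟩ | ⟨ka, ga⟩ | ⟨ka, ga⟩
          · linarith
          · rw [ga, ka]; ring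
          · linarith
      have hI := ih _ hcard h1 hanti rfl
      have hG : ∑ a, g a * y a ≤ Phi g := by
        obtain ⟨i, hiN, hi⟩ := lowerset_aux (fun a => 0 < h a) (fun a b hab hb => lt_of_lt_of_le hb (hh hab))
        obtain ⟨j, hjN, hj⟩ := lowerset_aux (fun a => 0 ≤ h a) (fun a b hab hb => le_trans hb (hh hab))
        have hij : i ≤ j := by
          by_contra hc
          rw [not_le] at hc
          have hjN' : j < N := by omega
          have e1 := (hi ⟨j, hjN'⟩).mpr hc
          have e2 := (hj ⟨j, hjN'⟩).mp (le_of_lt e1)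
          exact lt_irrefl _ e2
        refine maj_g_aux y hy i j hij hjN g ?_
        intro a
        rw [hgdef]
        congr 2
        · by_cases c : 0 < h a
          · rw [if_pos c, if_pos ((hi a).mp c)]
          · rw [if_neg c, if_neg (fun c' => c ((hi a).mpr c'))]
        · by_cases c : 0 ≤ h a
          · rw [if_pos c, if_pos ((hj a).mp c)]
          · rw [if_neg c, if_neg (fun c' => c ((hj a).mpr c'))]
      have hsum : ∑ a, h a * y a = s * ∑ a, g a * y a + ∑ a, h1 a * y a := by
        rw [Finset.mul_sum, ← Finset.sum_add_distrib]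
        apply Finset.sum_congr rfl
        intro a _
        rw [hh1]
        ring
      rw [hsum, hPhi]
      have := mul_le_mul_of_nonneg_left hG hs.le
      linarith
    · push Not at hz
      have h0 : ∑ a, h a * y a = 0 := by
        apply Finset.sum_eq_zero
        intro a _
        rw [hz a, zero_mul]
      rw [h0]
      unfold Phi
      simp [hz]

end Pool.Agent.Helper93.EP
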