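import Pool.Agent.Helper93.EP.Defs

set_option autoImplicit false

namespace Pool.Agent.Helper93.EP
open scoped BigOperators

theorem Phi_eq {N : ℕ} (h : Fin N → ℝ) : Phi h = ∑ a, h a * theta h a := by
  classical
  have hmax : ∀ x : ℝ, max x 0 = x * (if 0 < x then (1 : ℝ) else 0) := by
    intro x
    by_cases hx : 0 < x
    · simp [hx, hx.le]
    · simp [hx, not_lt.mp hx]
  have h1 : ∑ a : Fin N, ∑ b : Fin N, max (h a + h b) 0
      = 2 * ∑ a : Fin N, ∑ b : Fin N, h a * (if 0 < h a + h b then (1 : ℝ) else 0) := by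
    have e1 : ∑ a : Fin N, ∑ b : Fin N, max (h a + h b) 0
        = ∑ a : Fin N, ∑ b : Fin N, h a * (if 0 < h a + h b then (1 : ℝ) else 0)
          + ∑ a : Fin N, ∑ b : Fin N, h b * (if 0 < h a + h b then (1 : ℝ) else 0) := by
      rw [← Finset.sum_add_distrib]
      refine Finset.sum_congr rfl fun a _ => ?_
      rw [← Finset.sum_add_distrib]
      refine Finset.sum_congr rfl fun b _ => ?_
      rw [hmax, add_mul]
    have e2 : ∑ a : Fin N, ∑ b : Fin N, h b * (if 0 < h a + h b then (1 : ℝ) else 0)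
        = ∑ a : Fin N, ∑ b : Fin N, h a * (if 0 < h a + h b then (1 : ℝ) else 0) := by
      rw [Finset.sum_comm]
      refine Finset.sum_congr rfl fun a _ => Finset.sum_congr rfl fun b _ => ?_
      rw [add_comm (h b) (h a)]
    rw [e1, e2]; ring
  have h2 : ∑ a : Fin N, max (h a + h a) 0
      = 2 * ∑ a : Fin N, h a * (if 0 < h a + h a then (1 : ℝ) else 0) := by
    rw [Finset.mul_sum]
    refine Finset.sum_congr rfl fun a _ => ?_
    rw [hmax]; ring
  have h3 : ∑ a, h a * theta h a
      = ∑ a : Fin N, ∑ b : Fin N, h a * (if 0 < h a + h b then (1 : ℝ) else 0)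
        + ∑ a : Fin N, h a * (if 0 < h a + h a then (1 : ℝ) else 0) := by
    rw [← Finset.sum_add_distrib]
    refine Finset.sum_congr rfl fun a _ => ?_
    unfold theta
    rw [mul_add, Finset.mul_sum]
  unfold Phi
  rw [h1, h2, h3]; ring

end Pool.Agent.Helper93.EP
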