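import Pool.Agent.Helper93.EP.Defs

set_option autoImplicit false

namespace Pool.Agent.Helper93.EP
open scoped BigOperators

/-- `G` is a member of the family `G_{k,r,s}` (as in the landed MP_cdb7d6_co.LiGuoBrouwer) -/
def IsGkrs {V : Type} [Fintype V] [DecidableEq V] (G : SimpleGraph V) (k : ℕ) : Prop :=
  ∃ K R T : Finset V,
    Disjoint K R ∧ Disjoint K T ∧ Disjoint R T ∧ K ∪ R ∪ T = Finset.univ ∧
    K.card = k ∧ R.Nonempty ∧
    (∀ u ∈ K, ∀ v ∈ K, u ≠ v → G.Adj u v) ∧
    (∀ u ∈ R, ∀ v ∈ R, ¬ G.Adj u v) ∧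
    (∀ u ∈ K, ∀ v ∈ R, G.Adj u v) ∧
    (∀ v ∈ T, G.neighborSet v ⊂ (K : Set V)) ∧
    (∀ v ∈ T, ∀ w ∈ T,
      G.neighborSet v ⊆ G.neighborSet w ∨ G.neighborSet w ⊆ G.neighborSet v)

/-- every `G_{k,r,s}` is threshold -/
theorem thr_of_Gkrs {n : ℕ} (G : SimpleGraph (Fin n)) (k : ℕ) (hG : IsGkrs G k) :
    IsThreshold G := by
  classical
  obtain ⟨K, R, T, hKR, hKT, hRT, huniv, -, -, hKK, hRR, hKRa, hTK, hnest⟩ := hG
  let d : Fin n → ℕ := fun t => (G.neighborSet t).ncard
  have hd : ∀ t, d t ≤ n := by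
    intro t
    have := Set.ncard_le_card (G.neighborSet t)
    simpa using this
  let M : Fin n → Set ℕ := fun v => {x | x = n + 1 ∨ ∃ t ∈ T, G.Adj v t ∧ x = d t}
  let m : Fin n → ℕ := fun v => sInf (M v)
  have hMne : ∀ v, (M v).Nonempty := fun v => ⟨n+1, Or.inl rfl⟩
  have hm1 : ∀ v, m v ≤ n + 1 := fun v => Nat.sInf_le (Or.inl rfl)
  have hm2 : ∀ v t, t ∈ T → G.Adj v t → m v ≤ d t := fun v t ht h => Nat.sInf_le (Or.inr ⟨t, ht, h, rfl⟩)
  have hm3 : ∀ v t, t ∈ T → m v ≤ d t → G.Adj v t := by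
    intro v t ht h
    have hmem : m v ∈ M v := Nat.sInf_mem (hMne v)
    rcases hmem with h1 | ⟨t0, ht0, h1, h2⟩
    · have := hd t; omega
    · rw [h2] at h
      rcases hnest t ht t0 ht0 with h3 | h3
      · have e := Set.eq_of_subset_of_ncard_le h3 h (Set.toFinite _)
        have : v ∈ G.neighborSet t0 := h1.symm
        rw [← e] at this
        exact (G.mem_neighborSet t v |>.mp this).symm
      · have : v ∈ G.neighborSet t0 := h1.symm
        exact (G.mem_neighborSet t v |>.mp (h3 this)).symm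
  let key : Fin n → ℕ := fun v => if v ∈ R then 0 else if v ∈ K then 2 * (n + 1 - m v) + 1
    else 2 * (n + 1 - d v)
  have hcover : ∀ v, v ∈ K ∨ v ∈ R ∨ v ∈ T := by
    intro v
    have : v ∈ K ∪ R ∪ T := by rw [huniv]; exact Finset.mem_univ v
    simp only [Finset.mem_union] at this
    tauto
  have hKR' : ∀ v, v ∈ K → v ∉ R := fun v h1 h2 => Finset.disjoint_left.mp hKR h1 h2
  have hKT' : ∀ v, v ∈ K → v ∉ T := fun v h1 h2 => Finset.disjoint_left.mp hKT h1 h2
  have hRT' : ∀ v, v ∈ R → v ∉ T := fun v h1 h2 => Finset.disjoint_left.mp hRT h1 h2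
  have keyR : ∀ v, v ∈ R → key v = 0 := fun v h => by simp only [key, h, if_true]
  have keyK : ∀ v, v ∈ K → key v = 2 * (n + 1 - m v) + 1 := fun v h => by
    simp only [key, h, hKR' v h, if_true, if_false]
  have keyT : ∀ v, v ∈ T → key v = 2 * (n + 1 - d v) := fun v h => by
    have h1 : v ∉ R := fun h' => hRT' v h' h
    have h2 : v ∉ K := fun h' => hKT' v h' h
    simp only [key, h1, h2, if_false]
  refine ⟨Tuple.sort key, fun j => Tuple.sort key j ∈ K, ?_⟩
  intro i j hij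
  have hmono : key (Tuple.sort key i) ≤ key (Tuple.sort key j) := Tuple.monotone_sort key hij.le
  have hne : Tuple.sort key i ≠ Tuple.sort key j := fun h => hij.ne ((Tuple.sort key).injective h)
  show G.Adj (Tuple.sort key i) (Tuple.sort key j) ↔ Tuple.sort key j ∈ K
  generalize Tuple.sort key i = x at hmono hne ⊢
  generalize Tuple.sort key j = y at hmono hne ⊢
  have hTnot : ∀ y ∈ T, ∀ x, x ∉ K → ¬ G.Adj x y := by
    intro y hy x hx h
    exact hx ((hTK y hy).1 (show x ∈ G.neighborSet y from h.symm))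
  rcases hcover y with hy | hy | hy
  · refine ⟨fun _ => hy, fun _ => ?_⟩
    rcases hcover x with hx | hx | hx
    · exact hKK x hx y hy hne
    · exact (hKRa y hy x hx).symm
    · rw [keyT x hx, keyK y hy] at hmono
      have h1 := hd x
      have h2 := hm1 y
      exact (hm3 y x hx (by omega)).symm
  · constructor
    · intro h
      exfalso
      rw [keyR y hy] at hmono
      rcases hcover x with hx | hx | hx
      · rw [keyK x hx] at hmono; omega
      · exact hRR x hx y hy h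
      · rw [keyT x hx] at hmono
        have := hd x
        omega
    · intro h; exact absurd hy (hKR' y h)
  · constructor
    · intro h
      exfalso
      rcases hcover x with hx | hx | hx
      · rw [keyK x hx, keyT y hy] at hmono
        have h1 := hm2 x y hy h
        have h2 := hd y
        omega
      · exact hTnot y hy x (fun h' => hKR' x h' hx) h
      · exact hTnot y hy x (fun h' => hKT' x h' hx) h
    · intro h; exact absurd hy (hKT' y h)

/-- every threshold graph with at least one edge is a `G_{k,r,s}` with `1 ≤ k` -/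
theorem Gkrs_of_thr {n : ℕ} (G : SimpleGraph (Fin n)) (hG : IsThreshold G)
    (hne : ∃ x y, G.Adj x y) : ∃ k : ℕ, 1 ≤ k ∧ k ≤ n ∧ IsGkrs G k := by
  classical
  obtain ⟨σ, b, hσ⟩ := hG
  have hadj : ∀ u v : Fin n, σ.symm u < σ.symm v → (G.Adj u v ↔ b (σ.symm v)) := by
    intro u v h
    have := hσ _ _ h
    rwa [Equiv.apply_symm_apply, Equiv.apply_symm_apply] at this
  have hex : ∃ j : ℕ, ∃ h : j < n, 0 < j ∧ b ⟨j, h⟩ := by
    obtain ⟨x, y, hxy⟩ := hne
    have hne' : σ.symm x ≠ σ.symm y := fun h => hxy.ne (σ.symm.injective h)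
    rcases lt_or_gt_of_ne hne' with h | h
    · refine ⟨(σ.symm y : ℕ), (σ.symm y).2, lt_of_le_of_lt (Nat.zero_le _) h, ?_⟩
      exact (hadj x y h).mp hxy
    · refine ⟨(σ.symm x : ℕ), (σ.symm x).2, lt_of_le_of_lt (Nat.zero_le _) h, ?_⟩
      exact (hadj y x h).mp hxy.symm
  obtain ⟨hj0n, hj0pos, hbj0⟩ := Nat.find_spec hex
  have hmin : ∀ j : Fin n, 0 < (j:ℕ) → b j → Nat.find hex ≤ (j:ℕ) := by
    intro j h1 h2
    exact Nat.find_min' hex ⟨j.2, h1, h2⟩
  generalize hj0 : Nat.find hex = j0 at hj0n hj0pos hbj0 hmin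
  let K : Finset (Fin n) := Finset.univ.filter (fun v => j0 ≤ (σ.symm v : ℕ) ∧ b (σ.symm v))
  let R : Finset (Fin n) := Finset.univ.filter (fun v => (σ.symm v : ℕ) < j0)
  let T : Finset (Fin n) := Finset.univ.filter (fun v => j0 ≤ (σ.symm v : ℕ) ∧ ¬ b (σ.symm v))
  have mK : ∀ v, v ∈ K ↔ j0 ≤ (σ.symm v : ℕ) ∧ b (σ.symm v) := fun v => by simp [K]
  have mR : ∀ v, v ∈ R ↔ (σ.symm v : ℕ) < j0 := fun v => by simp [R]
  have mT : ∀ v, v ∈ T ↔ j0 ≤ (σ.symm v : ℕ) ∧ ¬ b (σ.symm v) := fun v => by simp [T]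
  have hv0 : σ ⟨j0, hj0n⟩ ∈ K := by
    rw [mK]; simp only [Equiv.symm_apply_apply]; exact ⟨le_rfl, hbj0⟩
  have hnb : ∀ v ∈ T, ∀ w, G.Adj v w ↔ σ.symm v < σ.symm w ∧ b (σ.symm w) := by
    intro v hv w
    rw [mT] at hv
    constructor
    · intro h
      have hne' : σ.symm v ≠ σ.symm w := fun h' => h.ne (σ.symm.injective h')
      rcases lt_or_gt_of_ne hne' with h1 | h1
      · exact ⟨h1, (hadj v w h1).mp h⟩
      · exact absurd ((hadj w v h1).mp h.symm) hv.2
    · rintro ⟨h1, h2⟩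
      exact (hadj v w h1).mpr h2
  refine ⟨K.card, Finset.card_pos.mpr ⟨_, hv0⟩, ?_, K, R, T, ?_, ?_, ?_, ?_, rfl, ?_, ?_, ?_, ?_, ?_, ?_⟩
  · have := Finset.card_le_univ K
    simpa using this
  · rw [Finset.disjoint_left]; intro v h1 h2; rw [mK] at h1; rw [mR] at h2; omega
  · rw [Finset.disjoint_left]; intro v h1 h2; rw [mK] at h1; rw [mT] at h2; exact h2.2 h1.2
  · rw [Finset.disjoint_left]; intro v h1 h2; rw [mR] at h1; rw [mT] at h2; omega
  · ext v
    simp only [Finset.mem_union, Finset.mem_univ, iff_true, mK, mR, mT]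
    by_cases h1 : j0 ≤ (σ.symm v : ℕ)
    · by_cases h2 : b (σ.symm v)
      · exact Or.inl (Or.inl ⟨h1, h2⟩)
      · exact Or.inr ⟨h1, h2⟩
    · exact Or.inl (Or.inr (by omega))
  · refine ⟨σ ⟨0, by omega⟩, ?_⟩
    rw [mR]; simp only [Equiv.symm_apply_apply]; exact hj0pos
  · intro u hu v hv huv
    rw [mK] at hu hv
    have hne' : σ.symm u ≠ σ.symm v := fun h' => huv (σ.symm.injective h')
    rcases lt_or_gt_of_ne hne' with h1 | h1
    · exact (hadj u v h1).mpr hv.2
    · exact ((hadj v u h1).mpr hu.2).symm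
  · intro u hu v hv h
    rw [mR] at hu hv
    have hne' : σ.symm u ≠ σ.symm v := fun h' => h.ne (σ.symm.injective h')
    rcases lt_or_gt_of_ne hne' with h1 | h1
    · have := hmin _ (lt_of_le_of_lt (Nat.zero_le _) h1) ((hadj u v h1).mp h)
      omega
    · have := hmin _ (lt_of_le_of_lt (Nat.zero_le _) h1) ((hadj v u h1).mp h.symm)
      omega
  · intro u hu v hv
    rw [mK] at hu
    rw [mR] at hv
    have h1 : σ.symm v < σ.symm u := by
      rw [Fin.lt_def]; omega
    exact ((hadj v u h1).mpr hu.2).symm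
  · intro v hv
    rw [Set.ssubset_def]
    constructor
    · intro w hw
      have h := (hnb v hv w).mp hw
      rw [Finset.mem_coe, mK]
      rw [mT] at hv
      have h1 := Fin.lt_def.mp h.1
      exact ⟨by omega, h.2⟩
    · intro hsub
      have h := (hnb v hv _).mp (hsub (Finset.mem_coe.mpr hv0))
      simp only [Equiv.symm_apply_apply] at h
      rw [mT] at hv
      have h1 := Fin.lt_def.mp h.1
      simp only at h1
      omega
  · intro v hv w hw
    rcases le_total (σ.symm v) (σ.symm w) with h | h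
    · right
      intro x hx
      have h1 := (hnb w hw x).mp hx
      exact (hnb v hv x).mpr ⟨lt_of_le_of_lt h h1.1, h1.2⟩
    · left
      intro x hx
      have h1 := (hnb v hv x).mp hx
      exact (hnb w hw x).mpr ⟨lt_of_le_of_lt h h1.1, h1.2⟩

end Pool.Agent.Helper93.EP
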