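import Pool.Agent.Helper376.HullC
import Pool.Agent.Helper93.EP.Defs

namespace Helper376Hull

open Finset Matrix

theorem spec_eq_lamD {N : ℕ} (G : SimpleGraph (Fin (N + 1))) [DecidableRel G.Adj]
    (σ : Equiv.Perm (Fin (N + 1))) (D : ℕ → Prop)
    (hD : ∀ i j : Fin (N + 1), i < j → (G.Adj (σ i) (σ j) ↔ D j)) :
    spec G = fun t : Fin (N + 1) => lamD D N t := by
  have h1 := charpoly_thr G σ D hD
  have h2 := spec_multiset G
  rw [h1] at h2
  have h3 : (∏ t : Fin (N + 1), (Polynomial.X - Polynomial.C (mu D (N + 1) t))).roots =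
      (Finset.univ : Finset (Fin (N + 1))).val.map (fun t : Fin (N + 1) => mu D (N + 1) (t : ℕ)) := by
    have := Polynomial.roots_multiset_prod_X_sub_C
      ((Finset.univ : Finset (Fin (N + 1))).val.map (fun t : Fin (N + 1) => mu D (N + 1) t))
    rw [Multiset.map_map] at this
    exact this
  rw [h3] at h2
  have key : ∀ f : ℕ → ℝ, (Finset.univ : Finset (Fin (N + 1))).val.map
      (fun t : Fin (N + 1) => f (t : ℕ)) =
      (Multiset.range (N + 1)).map f := by
    intro f
    rw [Fin.univ_val_map]
    have : List.ofFn (fun t : Fin (N + 1) => f t) = (List.range (N + 1)).map f := by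
      rw [List.ofFn_eq_map]
      rw [← List.map_coe_finRange_eq_range, List.map_map]
      rfl
    rw [this]
    rfl
  have hT := thr_lamD D N
  have h4 : (Multiset.range (N + 1)).map (fun t => mu D (N + 1) t) =
      (Multiset.range (N + 1)).map (lamD D N) := by
    rw [range_map_succ, ← multiset_lamD, Multiset.range_succ, Multiset.map_cons,
      hT.zero N le_rfl]
    congr 1
  apply antitone_unique _ _ (spec_antitone G)
  · intro i j hij
    exact hT.props.1 i j hij
  · rw [h2, key (fun t => mu D (N + 1) t), h4, key (lamD D N)]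

open Classical in
/-- degree of vertex `v` in construction order -/
noncomputable def dg (D : ℕ → Prop) (N v : ℕ) : ℕ :=
  (if D v then v else 0) + ((range (N + 1)).filter (fun d => v < d ∧ D d)).card

open Classical in
noncomputable def ds (D : ℕ → Prop) (N k : ℕ) : ℕ :=
  ((range (N + 1)).filter (fun v => k < dg D N v)).card

open Classical in
theorem dg_succ (D : ℕ → Prop) (N v : ℕ) (hv : v ≤ N) :
    dg D (N + 1) v = dg D N v + (if D (N + 1) then 1 else 0) := by
  unfold dg
  by_cases hD : D (N + 1)
  · have e : (range (N + 1 + 1)).filter (fun d => v < d ∧ D d) =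
        insert (N + 1) ((range (N + 1)).filter (fun d => v < d ∧ D d)) := by
      rw [Finset.range_add_one, Finset.filter_insert, if_pos ⟨by omega, hD⟩]
    rw [e, Finset.card_insert_of_notMem (by simp), if_pos hD]
    ring
  · have e : (range (N + 1 + 1)).filter (fun d => v < d ∧ D d) =
        (range (N + 1)).filter (fun d => v < d ∧ D d) := by
      rw [Finset.range_add_one, Finset.filter_insert, if_neg (fun h => hD h.2)]
    rw [e, if_neg hD]
    ring

open Classical in
theorem dg_top (D : ℕ → Prop) (N : ℕ) : dg D N N = if D N then N else 0 := by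
  unfold dg
  have : (range (N + 1)).filter (fun d => N < d ∧ D d) = ∅ := by
    ext d; simp; omega
  rw [this]
  simp

open Classical in
theorem ds_eq (D : ℕ → Prop) (N : ℕ) : ∀ k, (ds D N k : ℝ) = lamD D N k := by
  induction N with
  | zero =>
    intro k
    have h0 : dg D 0 0 = 0 := by rw [dg_top]; simp
    have : (range (0 + 1)).filter (fun v => k < dg D 0 v) = ∅ := by
      ext v
      simp only [zero_add, range_one, mem_filter, mem_singleton, notMem_empty, iff_false, not_and]
      rintro rfl
      omega
    unfold ds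
    rw [this]
    simp [lamD]
  | succ N ih =>
    intro k
    by_cases hD : D (N + 1)
    · have e2 : lamD D (N + 1) = domF N (lamD D N) := by
        rw [lamD, if_pos hD]
      rw [e2]
      have e3 : ds D (N + 1) k =
          (if k < N + 1 then 1 else 0) +
            ((range (N + 1)).filter (fun v => k < dg D N v + 1)).card := by
        unfold ds
        have h1 : (range (N + 1)).filter (fun v => k < dg D (N + 1) v) =
            (range (N + 1)).filter (fun v => k < dg D N v + 1) := by
          apply Finset.filter_congr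
          intro v hv
          rw [mem_range] at hv
          rw [dg_succ D N v (by omega), if_pos hD]
        rw [Finset.range_add_one (n := N + 1), Finset.filter_insert, dg_top, if_pos hD, h1]
        split_ifs with h
        · rw [Finset.card_insert_of_notMem (by simp)]; ring
        · ring
      rw [e3]
      rcases Nat.eq_zero_or_pos k with hk | hk
      · subst hk
        have : (range (N + 1)).filter (fun v => 0 < dg D N v + 1) = range (N + 1) := by
          apply Finset.filter_true_of_mem
          intro v _
          omega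
        rw [this]
        simp [domF]
        ring
      · obtain ⟨j, rfl⟩ : ∃ j, k = j + 1 := ⟨k - 1, by omega⟩
        have h1 : (range (N + 1)).filter (fun v => j + 1 < dg D N v + 1) =
            (range (N + 1)).filter (fun v => j < dg D N v) := by
          apply Finset.filter_congr
          intro v _
          omega
        rw [h1]
        have h2 := ih j
        unfold ds at h2
        push_cast
        rw [h2]
        unfold domF
        rw [if_neg (by omega : ¬ (j + 1 = 0)), Nat.add_sub_cancel]
        by_cases hj : j < N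
        · rw [if_pos (by omega), if_pos hj]; ring
        · rw [if_neg (by omega), if_neg hj, (thr_lamD D N).zero j (by omega)]; ring
    · have e2 : lamD D (N + 1) = lamD D N := by
        rw [lamD, if_neg hD]
      rw [e2, ← ih k]
      have : ds D (N + 1) k = ds D N k := by
        unfold ds
        have h1 : (range (N + 1)).filter (fun v => k < dg D (N + 1) v) =
            (range (N + 1)).filter (fun v => k < dg D N v) := by
          apply Finset.filter_congr
          intro v hv
          rw [mem_range] at hv
          rw [dg_succ D N v (by omega), if_neg hD, add_zero]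
        rw [Finset.range_add_one (n := N + 1), Finset.filter_insert, dg_top, if_neg hD, h1,
          if_neg (by omega)]
      rw [this]

open Classical in
theorem deg_eq_dg {N : ℕ} (G : SimpleGraph (Fin (N + 1)))
    (σ : Equiv.Perm (Fin (N + 1))) (D : ℕ → Prop)
    (hD : ∀ i j : Fin (N + 1), i < j → (G.Adj (σ i) (σ j) ↔ D j)) (i : Fin (N + 1)) :
    (Finset.univ.filter (fun w => G.Adj (σ i) w)).card = dg D N i := by
  have hadj : ∀ i j : Fin (N + 1), (G.Adj (σ i) (σ j) ↔ ((i : ℕ) ≠ j ∧ D (max (i : ℕ) j))) := by
    intro i j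
    rcases lt_trichotomy i j with h | h | h
    · have h' : (i : ℕ) < j := h
      rw [hD i j h, max_eq_right h'.le]
      exact ⟨fun hd => ⟨h'.ne, hd⟩, fun hd => hd.2⟩
    · subst h
      simp
    · have h' : (j : ℕ) < i := h
      rw [G.adj_comm, hD j i h, max_eq_left h'.le]
      exact ⟨fun hd => ⟨h'.ne', hd⟩, fun hd => hd.2⟩
  have h1 : (Finset.univ.filter (fun w => G.Adj (σ i) w)).card =
      ∑ j : Fin (N + 1), if G.Adj (σ i) (σ j) then 1 else 0 := by
    rw [Finset.card_filter, ← Equiv.sum_comp σ]
  rw [h1]
  have h2 : ∀ j : Fin (N + 1), (if G.Adj (σ i) (σ j) then 1 else 0) =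
      (fun j : ℕ => (if (i : ℕ) ≠ j ∧ D (max (i : ℕ) j) then 1 else 0 : ℕ)) j := by
    intro j
    simp only [hadj i j]
  rw [Finset.sum_congr rfl (fun j _ => h2 j), Fin.sum_univ_eq_sum_range
    (fun j : ℕ => (if (i : ℕ) ≠ j ∧ D (max (i : ℕ) j) then 1 else 0 : ℕ)) (N + 1)]
  have hi := i.isLt
  generalize (i : ℕ) = v at hi
  have h3 : ∀ j ∈ range (N + 1), (if v ≠ j ∧ D (max v j) then 1 else 0 : ℕ) =
      (if j < v then (if D v then 1 else 0) else 0) + (if v < j ∧ D j then 1 else 0) := by
    intro j _
    rcases lt_trichotomy j v with hj | hj | hj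
    · rw [max_eq_left hj.le, if_pos hj, if_neg (by omega : ¬ (v < j ∧ D j)), add_zero]
      by_cases hDv : D v
      · rw [if_pos ⟨hj.ne', hDv⟩, if_pos hDv]
      · rw [if_neg (fun h => hDv h.2), if_neg hDv]
    · subst hj
      rw [if_neg (fun h => h.1 rfl), if_neg (lt_irrefl _), if_neg (by omega : ¬ (j < j ∧ D j))]
    · rw [max_eq_right hj.le, if_neg (by omega : ¬ j < v), zero_add]
      by_cases hDj : D j
      · rw [if_pos ⟨hj.ne, hDj⟩, if_pos ⟨hj, hDj⟩]
      · rw [if_neg (fun h => hDj h.2), if_neg (fun h => hDj h.2)]
  rw [Finset.sum_congr rfl h3, Finset.sum_add_distrib]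
  unfold dg
  congr 1
  · rw [← Finset.sum_filter]
    have : (range (N + 1)).filter (fun j => j < v) = range v := by
      ext u; simp; omega
    rw [this]
    simp
  · rw [Finset.card_filter]

open Classical in
theorem spec_conj {n : ℕ} (G : SimpleGraph (Fin n)) (hG : IsThreshold G) (k : Fin n) :
    spec G k = ((Finset.univ.filter (fun v => (k : ℕ) <
      (Finset.univ.filter (fun w => G.Adj v w)).card)).card : ℝ) := by
  obtain ⟨N, rfl⟩ : ∃ N, n = N + 1 := ⟨n - 1, by have := k.isLt; omega⟩
  obtain ⟨σ, D0, hD0⟩ := hG
  let D : ℕ → Prop := fun d => ∃ h : d < N + 1, D0 ⟨d, h⟩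
  have hD : ∀ i j : Fin (N + 1), i < j → (G.Adj (σ i) (σ j) ↔ D j) := by
    intro i j hij
    rw [hD0 i j hij]
    exact ⟨fun h => ⟨j.isLt, h⟩, fun ⟨_, h⟩ => h⟩
  have h1 := congrFun (spec_eq_lamD G σ D hD) k
  rw [h1, ← ds_eq D N k]
  congr 1
  unfold ds
  rw [Finset.card_filter, Finset.card_filter, ← Equiv.sum_comp σ,
    ← Fin.sum_univ_eq_sum_range (fun v => if (k : ℕ) < dg D N v then 1 else 0) (N + 1)]
  refine Finset.sum_congr rfl fun i _ => ?_
  rw [deg_eq_dg G σ D hD i]

end Helper376Hull

namespace Pool.Agent.Helper93.EP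

open Classical in
theorem thr_conj {n : ℕ} (G : SimpleGraph (Fin n)) (hG : IsThreshold G) (k : Fin n) :
    lam G k = ((Finset.univ.filter (fun v => (k : ℕ) <
      (Finset.univ.filter (fun w => G.Adj v w)).card)).card : ℝ) :=
  Helper376Hull.spec_conj G hG k

end Pool.Agent.Helper93.EP
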